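import Mathlib

open Finset

namespace Pool.Agent.H573Z.SN

section cm
variable {W C : Type*} [Fintype W]

/-- `G` only depends on the context `c`. -/
def Inv {D : Type*} (c : W → C) (G : W → D) : Prop := ∀ w w', c w = c w' → G w = G w'

open Classical in
/-- conditional mean of `f` given the value `k` of the context `c`. -/
noncomputable def cmean (p : W → ℝ) (c : W → C) (f : W → ℝ) (k : C) : ℝ :=
  (∑ w, if c w = k then p w * f w else 0) / (∑ w, if c w = k then p w else 0)

lemma cmean_nonneg (p : W → ℝ) (hp : ∀ w, 0 ≤ p w) (c : W → C) (f : W → ℝ)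
    (hf : ∀ w, 0 ≤ f w) (k : C) : 0 ≤ cmean p c f k := by
  unfold cmean
  refine div_nonneg (sum_nonneg fun w _ => ?_) (sum_nonneg fun w _ => ?_)
  · split_ifs
    · exact mul_nonneg (hp w) (hf w)
    · exact le_rfl
  · split_ifs
    · exact hp w
    · exact le_rfl

lemma cmean_le_one (p : W → ℝ) (hp : ∀ w, 0 ≤ p w) (c : W → C) (f : W → ℝ)
    (hf : ∀ w, f w ≤ 1) (k : C) : cmean p c f k ≤ 1 := by
  unfold cmean
  refine div_le_one_of_le₀ (sum_le_sum fun w _ => ?_) (sum_nonneg fun w _ => ?_)
  · split_ifs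
    · exact mul_le_of_le_one_right (hp w) (hf w)
    · exact le_rfl
  · split_ifs
    · exact hp w
    · exact le_rfl

/-- the innovation -/
noncomputable def inn (p : W → ℝ) (c : W → C) (f : W → ℝ) (w : W) : ℝ := f w - cmean p c f (c w)

lemma abs_inn_le (p : W → ℝ) (hp : ∀ w, 0 ≤ p w) (c : W → C) (f : W → ℝ)
    (hf0 : ∀ w, 0 ≤ f w) (hf : ∀ w, f w ≤ 1) (w : W) : |inn p c f w| ≤ 1 := by
  have h1 := cmean_nonneg p hp c f hf0 (c w)
  have h2 := cmean_le_one p hp c f hf (c w)
  have h3 := hf0 w
  have h4 := hf w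
  unfold inn
  rw [abs_le]; constructor <;> linarith

lemma inn_orth (p : W → ℝ) (hp : ∀ w, 0 ≤ p w) (c : W → C) (f : W → ℝ) (G : W → ℝ)
    (hG : Inv c G) : ∑ w, p w * (inn p c f w * G w) = 0 := by
  classical
  rw [← Finset.sum_fiberwise_of_maps_to (s := univ) (t := univ.image c) (g := c)
    (fun w _ => mem_image_of_mem c (mem_univ w))]
  refine sum_eq_zero fun k hk => ?_
  obtain ⟨w0, -, rfl⟩ := mem_image.mp hk
  have e1 : ∀ w ∈ univ.filter (fun w => c w = c w0), p w * (inn p c f w * G w) =
      (p w * f w - p w * cmean p c f (c w0)) * G w0 := by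
    intro w hw
    have h := (mem_filter.mp hw).2
    rw [hG w w0 h]; unfold inn; rw [h]; ring
  rw [sum_congr rfl e1, ← sum_mul, sum_sub_distrib, ← sum_mul]
  have e2 : (∑ w ∈ univ.filter (fun w => c w = c w0), p w) * cmean p c f (c w0) =
      ∑ w ∈ univ.filter (fun w => c w = c w0), p w * f w := by
    unfold cmean
    rw [← sum_filter, ← sum_filter]
    by_cases h0 : ∑ w ∈ univ.filter (fun w => c w = c w0), p w = 0
    · have h1 := (sum_eq_zero_iff_of_nonneg (fun w _ => hp w)).mp h0
      rw [h0, zero_mul]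
      exact (sum_eq_zero fun w hw => by rw [h1 w hw, zero_mul]).symm
    · have : (filter (fun w => c w = c w0) univ) =
          @filter W (fun w => c w = c w0) (fun w => Classical.propDecidable _) univ := by
        congr
      rw [← this]
      field_simp
  rw [e2]; simp

lemma inn_sq (p : W → ℝ) (hp : ∀ w, 0 ≤ p w) (c : W → C) (f : W → ℝ) (m : ℝ) :
    ∑ w, p w * ((f w - m) * inn p c f w) = ∑ w, p w * inn p c f w ^ 2 := by
  have h := inn_orth p hp c f (fun w => cmean p c f (c w) - m) (fun w w' h => by simp only [h])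
  have e : ∀ w, p w * ((f w - m) * inn p c f w) =
      p w * inn p c f w ^ 2 + p w * (inn p c f w * (cmean p c f (c w) - m)) := by
    intro w; unfold inn; ring
  simp_rw [e]
  rw [sum_add_distrib, h, add_zero]

/-- collapse of a Riesz product -/
lemma collapse {ι : Type*} [LinearOrder ι] (p : W → ℝ) (c : ι → W → C) (u : ι → W → ℝ)
    (horth : ∀ i G, Inv (c i) G → ∑ w, p w * (u i w * G w) = 0)
    (hu : ∀ i j, i < j → Inv (c i) (u j)) (t : ι → ℝ) (A : Finset ι) (G : W → ℝ)
    (hG : ∀ i ∈ A, Inv (c i) G) :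
    ∑ w, p w * ((∏ i ∈ A, (1 + t i * u i w)) * G w) = ∑ w, p w * G w := by
  induction A using Finset.induction_on_min with
  | empty => simp
  | insert a s ha ih =>
    have hna : a ∉ s := fun h => lt_irrefl _ (ha a h)
    have h1 := horth a (fun w => (∏ i ∈ s, (1 + t i * u i w)) * G w) (by
      intro w w' h
      show (∏ i ∈ s, (1 + t i * u i w)) * G w = (∏ i ∈ s, (1 + t i * u i w')) * G w'
      rw [hG a (mem_insert_self _ _) w w' h]
      congr 1
      exact prod_congr rfl fun i hi => by rw [hu a i (ha i hi) w w' h])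
    rw [← ih (fun i hi => hG i (mem_insert_of_mem hi))]
    have e : ∀ w, p w * ((∏ i ∈ insert a s, (1 + t i * u i w)) * G w) =
        p w * ((∏ i ∈ s, (1 + t i * u i w)) * G w) +
          t a * (p w * (u a w * ((∏ i ∈ s, (1 + t i * u i w)) * G w))) := by
      intro w; rw [prod_insert hna]; ring
    simp_rw [e]
    rw [sum_add_distrib, ← mul_sum, h1, mul_zero, add_zero]

end cm

/-- The exact correlation under the Riesz product coupling. -/
lemma coupling {W V C D : Type*} [Fintype W] [Fintype V] {L : ℕ}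
    (p : W → ℝ) (c : Fin L → W → C) (u : Fin L → W → ℝ)
    (horth : ∀ i G, Inv (c i) G → ∑ w, p w * (u i w * G w) = 0)
    (hu : ∀ i j, i < j → Inv (c i) (u j))
    (q : V → ℝ) (d : Fin L → V → D) (v : Fin L → V → ℝ)
    (horth' : ∀ i G, Inv (d i) G → ∑ w, q w * (v i w * G w) = 0)
    (hv : ∀ i j, j < i → Inv (d i) (v j))
    (k : Fin L) (F : W → ℝ) (hF : ∀ i, i < k → Inv (c i) F)
    (G : V → ℝ) (hG : ∀ i, k < i → Inv (d i) G) :
    ∑ b, q b * ∑ w, p w * ((∏ i, (1 + u i w * v i b)) * (F w * G b)) =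
      (∑ w, p w * F w) * (∑ b, q b * G b) +
        (∑ w, p w * (F w * u k w)) * (∑ b, q b * (G b * v k b)) := by
  have hsplit : ∀ a : Fin L → ℝ, ∏ i, a i =
      (∏ i ∈ univ.filter (· < k), a i) * (a k * ∏ i ∈ univ.filter (k < ·), a i) := by
    intro a
    rw [← Finset.prod_filter_mul_prod_filter_not univ (· < k)]
    congr 1
    have : univ.filter (fun i => ¬ i < k) = insert k (univ.filter (k < ·)) := by
      ext i; simp only [mem_filter, mem_univ, true_and, mem_insert, not_lt]
      constructor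
      · intro h; rcases h.eq_or_lt with h | h
        · exact Or.inl h.symm
        · exact Or.inr h
      · rintro (h | h)
        · exact h.ge
        · exact h.le
    rw [this, prod_insert (by simp)]
  have step1 : ∀ b, ∑ w, p w * ((∏ i, (1 + u i w * v i b)) * (F w * G b)) =
      ∑ w, p w * (((1 + u k w * v k b) * ∏ i ∈ univ.filter (k < ·), (1 + u i w * v i b)) *
        (F w * G b)) := by
    intro b
    rw [← collapse p c u horth hu (fun i => v i b) (univ.filter (· < k))
      (fun w => (((1 + u k w * v k b) * ∏ i ∈ univ.filter (k < ·), (1 + u i w * v i b)) *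
        (F w * G b)))]
    · refine sum_congr rfl fun w _ => ?_
      rw [hsplit]
      simp only [mul_comm (v _ b)]
      ring
    · intro i hi w w' h
      have hik : i < k := (mem_filter.mp hi).2
      beta_reduce
      rw [hF i hik w w' h, hu i k hik w w' h]
      congr 2
      exact prod_congr rfl fun j hj => by rw [hu i j (hik.trans (mem_filter.mp hj).2) w w' h]
  simp_rw [step1]
  simp_rw [mul_sum]
  rw [sum_comm]
  have step2 : ∀ w, ∑ b, q b * (p w * (((1 + u k w * v k b) *
      ∏ i ∈ univ.filter (k < ·), (1 + u i w * v i b)) * (F w * G b))) =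
      p w * F w * ∑ b, q b * ((1 + u k w * v k b) * G b) := by
    intro w
    have h := collapse (ι := (Fin L)ᵒᵈ) q d v horth' (fun i j hij => hv i j hij)
      (fun i => u i w) (univ.filter (k < ·) : Finset (Fin L))
      (fun b => (1 + u k w * v k b) * G b) (by
        intro i hi b b' h
        have hik : k < (i : Fin L) := (mem_filter.mp hi).2
        beta_reduce
        rw [hG i hik b b' h, hv i k hik b b' h])
    rw [← h, mul_sum]
    refine sum_congr rfl fun b _ => ?_
    have : (∏ i ∈ (univ.filter (k < ·) : Finset (Fin L)), (1 + u i w * v i b)) =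
      ∏ i ∈ (show Finset (Fin L)ᵒᵈ from (univ.filter (k < ·) : Finset (Fin L))),
        (1 + u i w * v i b) := rfl
    rw [this]; ring
  simp_rw [step2]
  rw [← mul_sum, ← mul_sum, sum_mul, sum_mul, ← sum_add_distrib]
  refine sum_congr rfl fun w _ => ?_
  have : ∑ b, q b * ((1 + u k w * v k b) * G b) =
      ∑ b, q b * G b + u k w * ∑ b, q b * (G b * v k b) := by
    rw [mul_sum, ← sum_add_distrib]
    exact sum_congr rfl fun b _ => by ring
  rw [this]; ring

/-- second moment of a martingale transform -/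
lemma mart_sq {W C : Type*} [Fintype W] (p : W → ℝ) (hp : ∀ w, 0 ≤ p w) (hp1 : ∑ w, p w = 1)
    (c : ℕ → W → C) (d h : ℕ → W → ℝ)
    (horth : ∀ b G, Inv (c b) G → ∑ w, p w * (d b w * G w) = 0)
    (hd : ∀ b b', b < b' → Inv (c b') (d b)) (hh : ∀ b b', b ≤ b' → Inv (c b') (h b))
    (hd1 : ∀ b w, |d b w| ≤ 1) (hh1 : ∀ b w, |h b w| ≤ 1) (M : ℕ) :
    ∑ w, p w * (∑ b ∈ range M, d b w * h b w) ^ 2 ≤ M := by
  induction M with
  | zero => simp
  | succ M ih =>
    have h1 := horth M (fun w => h M w * ∑ b ∈ range M, d b w * h b w) (by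
      intro w w' e
      beta_reduce
      rw [hh M M le_rfl w w' e]
      congr 1
      refine sum_congr rfl fun b hb => ?_
      have := mem_range.mp hb
      rw [hd b M this w w' e, hh b M this.le w w' e])
    have h2 : ∑ w, p w * (d M w * h M w) ^ 2 ≤ 1 := by
      rw [← hp1]
      refine sum_le_sum fun w _ => mul_le_of_le_one_right (hp w) ?_
      have : |d M w * h M w| ≤ 1 := by
        rw [abs_mul]; exact mul_le_one₀ (hd1 M w) (abs_nonneg _) (hh1 M w)
      exact (sq_le_one_iff_abs_le_one _).mpr this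
    have e : ∀ w, p w * (∑ b ∈ range (M + 1), d b w * h b w) ^ 2 =
        p w * (∑ b ∈ range M, d b w * h b w) ^ 2 + p w * (d M w * h M w) ^ 2 +
          2 * (p w * (d M w * (h M w * ∑ b ∈ range M, d b w * h b w))) := by
      intro w; rw [sum_range_succ]; ring
    simp_rw [e]
    rw [sum_add_distrib, sum_add_distrib, ← mul_sum, h1]
    push_cast
    linarith

end Pool.Agent.H573Z.SN
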