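import Pool.Agent.H573Z.SN.Defs
import Pool.Agent.H573Z.SN.Fin

open MeasureTheory Filter Topology Finset

namespace Pool.Agent.H573Z.SN

/-- law of a finite valued variable -/
noncomputable def lawp {Ω W : Type*} [MeasurableSpace Ω] (μ : Measure Ω) (g : Ω → W) (w : W) : ℝ :=
  μ.real (g ⁻¹' {w})

section law
variable {Ω W : Type*} [MeasurableSpace Ω] (μ : Measure Ω) [IsProbabilityMeasure μ]
  [Fintype W] [MeasurableSpace W] [MeasurableSingletonClass W]

omit [IsProbabilityMeasure μ] [Fintype W] [MeasurableSpace W] [MeasurableSingletonClass W] in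
lemma lawp_nonneg (g : Ω → W) (w : W) : 0 ≤ lawp μ g w := measureReal_nonneg

lemma integral_law (g : Ω → W) (hg : Measurable g) (G : W → ℝ) :
    ∫ x, G (g x) ∂μ = ∑ w, lawp μ g w * G w := by
  have hG : Measurable G := measurable_of_finite G
  rw [← integral_map hg.aemeasurable hG.aestronglyMeasurable, integral_fintype Integrable.of_finite]
  refine sum_congr rfl fun w _ => ?_
  rw [smul_eq_mul, lawp, map_measureReal_apply hg (measurableSet_singleton w)]

lemma integrable_law (g : Ω → W) (hg : Measurable g) (G : W → ℝ) :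
    Integrable (fun x => G (g x)) μ := by
  have hG : Measurable G := measurable_of_finite G
  exact (integrable_map_measure hG.aestronglyMeasurable hg.aemeasurable).mp Integrable.of_finite

lemma lawp_sum (g : Ω → W) (hg : Measurable g) : ∑ w, lawp μ g w = 1 := by
  have := integral_law μ g hg (fun _ => 1)
  simpa using this.symm

lemma real_preimage_bool (g : Ω → W) (hg : Measurable g) (E : W → Bool) :
    μ.real ((fun x => E (g x)) ⁻¹' {true}) = ∑ w, lawp μ g w * (if E w = true then 1 else 0) := by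
  classical
  have h := sum_measureReal_preimage_singleton (μ := μ) (univ.filter (fun w => E w = true))
    (f := g) (fun y _ => hg (measurableSet_singleton y))
  have e : (fun x => E (g x)) ⁻¹' {true} = g ⁻¹' ↑(univ.filter (fun w => E w = true)) := by
    ext x; simp
  rw [e, ← h, sum_filter]
  refine sum_congr rfl fun w _ => ?_
  unfold lawp
  split_ifs <;> simp

end law

lemma negMulLog_add_le {x y : ℝ} (hx : 0 ≤ x) (hy : 0 ≤ y) :
    Real.negMulLog (x + y) ≤ Real.negMulLog x + Real.negMulLog y := by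
  rcases hx.eq_or_lt with rfl | hx
  · simp
  rcases hy.eq_or_lt with rfl | hy
  · simp
  unfold Real.negMulLog
  have h1 : Real.log x ≤ Real.log (x + y) := Real.log_le_log hx (by linarith)
  have h2 : Real.log y ≤ Real.log (x + y) := Real.log_le_log hy (by linarith)
  nlinarith

lemma negMulLog_sum_le {ι : Type*} (s : Finset ι) (f : ι → ℝ) (hf : ∀ i, 0 ≤ f i) :
    Real.negMulLog (∑ i ∈ s, f i) ≤ ∑ i ∈ s, Real.negMulLog (f i) := by
  classical
  induction s using Finset.induction_on with
  | empty => simp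
  | insert a s ha ih =>
    rw [sum_insert ha, sum_insert ha]
    exact (negMulLog_add_le (hf a) (sum_nonneg fun i _ => hf i)).trans (by linarith)

lemma negMulLog_le_gibbs {P Q : ℝ} (hP : 0 ≤ P) (hQ : 0 < Q) :
    Real.negMulLog P ≤ P * (-Real.log Q) + Q - P := by
  rcases hP.eq_or_lt with rfl | hP
  · simp [hQ.le]
  have h := Real.log_le_sub_one_of_pos (div_pos hQ hP)
  rw [Real.log_div hQ.ne' hP.ne'] at h
  have h2 := mul_le_mul_of_nonneg_left h hP.le
  have h3 : P * (Q / P - 1) = Q - P := by field_simp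
  unfold Real.negMulLog
  nlinarith

/-- The coding bound for the entropy. -/
lemma shannon_le_code {Ω A I : Type*} [MeasurableSpace Ω] [Fintype A] [Fintype I]
    (μ : Measure Ω) [IsProbabilityMeasure μ] (V : Ω → A) (β : I → Ω → Bool)
    (hβ : ∀ i, Measurable (β i)) (hV : ∀ x x', (∀ i, β i x = β i x') → V x = V x')
    (θ : I → ℝ) (hθ0 : ∀ i, 0 < θ i) (hθ1 : ∀ i, θ i < 1) :
    shannonEntropy μ V ≤
      ∑ i, (μ.real (β i ⁻¹' {true}) * (-Real.log (θ i)) + (-Real.log (1 - θ i))) := by
  classical
  let C : Ω → I → Bool := fun x i => β i x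
  have hC : Measurable C := measurable_pi_lambda _ hβ
  obtain ⟨x0⟩ : Nonempty Ω := nonempty_of_isProbabilityMeasure μ
  let g : (I → Bool) → A := fun c => if h : ∃ x, C x = c then V h.choose else V x0
  have hg : ∀ x, g (C x) = V x := by
    intro x
    have h : ∃ x', C x' = C x := ⟨x, rfl⟩
    simp only [g, dif_pos h]
    exact hV _ _ (fun i => congrFun h.choose_spec i)
  let q : (I → Bool) → ℝ := fun c => ∏ i, (if c i = true then θ i else 1 - θ i)
  have hq0 : ∀ c, 0 < q c := fun c => prod_pos fun i _ => by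
    split_ifs
    · exact hθ0 i
    · linarith [hθ1 i]
  have hq1 : ∑ c, q c = 1 := by
    have := Finset.prod_univ_sum (fun _ : I => (univ : Finset Bool))
      (fun i b => if b = true then θ i else 1 - θ i)
    rw [Fintype.piFinset_univ] at this
    rw [← this]
    simp
  have h1 : shannonEntropy μ V ≤ ∑ c, Real.negMulLog (lawp μ C c) := by
    unfold shannonEntropy
    rw [← Finset.sum_fiberwise (s := univ) (g := g) (f := fun c => Real.negMulLog (lawp μ C c))]
    refine sum_le_sum fun a _ => ?_
    have h := sum_measureReal_preimage_singleton (μ := μ) (univ.filter (fun c => g c = a))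
      (f := C) (fun y _ => hC (measurableSet_singleton y))
    have e : V ⁻¹' {a} = C ⁻¹' ↑(univ.filter (fun c => g c = a)) := by
      ext x; simp [hg]
    rw [e, ← h]
    exact negMulLog_sum_le _ _ (fun c => measureReal_nonneg)
  have h2 : ∑ c, Real.negMulLog (lawp μ C c) ≤ ∑ c, lawp μ C c * (-Real.log (q c)) := by
    calc _ ≤ ∑ c, (lawp μ C c * (-Real.log (q c)) + q c - lawp μ C c) :=
          sum_le_sum fun c _ => negMulLog_le_gibbs (lawp_nonneg μ C c) (hq0 c)
      _ = _ := by rw [sum_sub_distrib, sum_add_distrib, hq1, lawp_sum μ C hC]; ring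
  refine h1.trans (h2.trans ?_)
  have e : ∀ c, lawp μ C c * (-Real.log (q c)) =
      ∑ i, lawp μ C c * (-Real.log (if c i = true then θ i else 1 - θ i)) := by
    intro c
    rw [← mul_sum, sum_neg_distrib, Real.log_prod]
    intro i _
    split_ifs
    · exact (hθ0 i).ne'
    · linarith [hθ1 i]
  simp_rw [e]
  rw [sum_comm]
  refine sum_le_sum fun i _ => ?_
  have h3 := real_preimage_bool μ C hC (fun c => c i)
  have h4 : μ.real (β i ⁻¹' {true}) = ∑ c, lawp μ C c * (if c i = true then 1 else 0) := h3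
  have h5 : -Real.log (1 - θ i) = ∑ c, lawp μ C c * (-Real.log (1 - θ i)) := by
    rw [← sum_mul, lawp_sum μ C hC, one_mul]
  rw [h4, h5, sum_mul, ← sum_add_distrib]
  refine sum_le_sum fun c _ => ?_
  have h6 : 0 ≤ -Real.log (1 - θ i) := by
    have := Real.log_nonpos (by linarith [hθ1 i] : 0 ≤ 1 - θ i) (by linarith [hθ0 i])
    linarith
  have h7 := mul_nonneg (lawp_nonneg μ C c) h6
  split_ifs
  · linarith
  · simp

lemma exists_cost (ε : ℝ) (hε : 0 < ε) : ∃ θ η : ℝ, 0 < θ ∧ θ < 1 ∧ 0 < η ∧
    ∀ p : ℝ, p ≤ η → p * (-Real.log θ) + (-Real.log (1 - θ)) ≤ ε := by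
  set θ := 1 - Real.exp (-(ε / 2)) with hθ
  have h1 : Real.exp (-(ε / 2)) < 1 := Real.exp_lt_one_iff.mpr (by linarith)
  have h2 : 0 < Real.exp (-(ε / 2)) := Real.exp_pos _
  have h0 : 0 < θ := by linarith
  have h3 : θ < 1 := by linarith
  have h4 : 0 < -Real.log θ := by linarith [Real.log_neg h0 h3]
  refine ⟨θ, (ε / 2) / (-Real.log θ), h0, h3, by positivity, fun p hp => ?_⟩
  have h5 : 1 - θ = Real.exp (-(ε / 2)) := by rw [hθ]; ring
  rw [h5, Real.log_exp]
  rw [le_div_iff₀ h4] at hp
  linarith

end Pool.Agent.H573Z.SN
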