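import Mathlib

open MeasureTheory Filter Topology

namespace Pool.Agent.H573Z.SN

/-- The left shift on one-sided sequences. -/
def shift {Λ : Type*} (x : ℕ → Λ) : ℕ → Λ := fun n => x (n + 1)

/-- The cylinder `[B]` of the sequences which start with the block `B`. -/
def cyl {Λ : Type*} {k : ℕ} (B : Fin k → Λ) : Set (ℕ → Λ) := {x | ∀ i : Fin k, x i = B i}

/-- The proportion of the integers `n < N` which lie in `A`. -/
noncomputable def freq (A : Set ℕ) (N : ℕ) : ℝ := ((A ∩ Set.Iio N).ncard : ℝ) / N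

/-- `x` is generic for `μ`: every finite block `B` occurs in `x` with frequency `μ [B]`. -/
def Generic {Λ : Type*} [MeasurableSpace Λ] (μ : Measure (ℕ → Λ)) (x : ℕ → Λ) : Prop :=
  ∀ (k : ℕ) (B : Fin k → Λ),
    Tendsto (freq {n | shift^[n] x ∈ cyl B}) atTop (𝓝 (μ.real (cyl B)))

/-- `z` is simply `μ`-normal: every symbol `a` occurs in `z` with frequency `μ [a]`. -/
def SimplyNormal {Λ : Type*} [MeasurableSpace Λ] (μ : Measure (ℕ → Λ)) (z : ℕ → Λ) : Prop :=
  ∀ a : Λ, Tendsto (freq {n | z n = a}) atTop (𝓝 (μ.real {x | x 0 = a}))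

/-- `x|_S`: the sequence `x (s 0), x (s 1), ...` where `s 0 < s 1 < ...` enumerates `S`. -/
noncomputable def restrictTo {Λ : Type*} (x : ℕ → Λ) (S : Set ℕ) : ℕ → Λ :=
  fun n => x (Nat.nth (fun m => m ∈ S) n)

/-- `S` preserves simple `μ`-normality. -/
def PreservesSimple {Λ : Type*} [MeasurableSpace Λ] (μ : Measure (ℕ → Λ)) (S : Set ℕ) : Prop :=
  ∀ x, Generic μ x → SimplyNormal μ (restrictTo x S)

open Classical in
/-- The indicator sequence of `S`. -/
noncomputable def indic (S : Set ℕ) : ℕ → Bool := fun n => decide (n ∈ S)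

/-- `ν` is derived from `S`: a shift-invariant probability measure on binary sequences which is
the weak-* limit of the empirical measures `(1/N) ∑_{n<N} δ_{σ^n 1_S}` along a subsequence. -/
def Derived (S : Set ℕ) (ν : Measure (ℕ → Bool)) : Prop :=
  IsProbabilityMeasure ν ∧ MeasurePreserving shift ν ν ∧
    ∃ N : ℕ → ℕ, StrictMono N ∧ ∀ f : C(ℕ → Bool, ℝ),
      Tendsto (fun j => (∑ n ∈ Finset.range (N j), f (shift^[n] (indic S))) / (N j : ℝ)) atTop
        (𝓝 (∫ y, f y ∂ν))

/-- Shannon entropy of the finite partition of `X` into the sets `{P = i}`. -/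
noncomputable def shannonEntropy {X ι : Type*} [MeasurableSpace X] [Fintype ι] (μ : Measure X)
    (P : X → ι) : ℝ :=
  ∑ i, Real.negMulLog (μ.real (P ⁻¹' {i}))

/-- The join of the partitions `P, T⁻¹P, ..., T^{-(n-1)}P`. -/
def itinerary {X ι : Type*} (T : X → X) (P : X → ι) (n : ℕ) (x : X) : Fin n → ι :=
  fun j => P (T^[j] x)

/-- Entropy of `T` relative to the finite partition `P`: the limit (written as an upper limit) of
`H(P ∨ T⁻¹P ∨ ... ∨ T^{-(n-1)}P) / n`. -/
noncomputable def partitionEntropy {X : Type*} [MeasurableSpace X] (μ : Measure X) (T : X → X)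
    {k : ℕ} (P : X → Fin k) : EReal :=
  limsup (fun n : ℕ => ((shannonEntropy μ (itinerary T P n) / n : ℝ) : EReal)) atTop

/-- Kolmogorov-Sinai entropy: the supremum over all finite measurable partitions. -/
noncomputable def ksEntropy {X : Type*} [MeasurableSpace X] (μ : Measure X) (T : X → X) : EReal :=
  ⨆ (k : ℕ) (P : X → Fin k) (_ : Measurable P), partitionEntropy μ T P

/-- `S` is deterministic: every measure derived from `S` has entropy zero. -/
def Deterministic (S : Set ℕ) : Prop :=
  ∀ ν : Measure (ℕ → Bool), Derived S ν → ksEntropy ν shift = 0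

end Pool.Agent.H573Z.SN
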