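import Pool.Agent.H573Z.SN.Ent

open MeasureTheory Filter Topology Finset

namespace Pool.Agent.H573Z.SN

/-- the `b`-th block of length `L` -/
def blk (L : ℕ) (y : ℕ → Bool) (b : ℕ) : Fin L → Bool := fun j => y (b * L + j)

/-- empirical innovations of a family of `M` blocks -/
noncomputable def vv {L M : ℕ} (B : Fin M → Fin L → Bool) (i : Fin L) (b : Fin M) : ℝ :=
  inn (fun _ : Fin M => (1 : ℝ) / M) (fun b => pmask i (B b)) (fun b => b2r (B b i)) b

/-- total empirical innovation variance -/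
noncomputable def VV {L M : ℕ} (B : Fin M → Fin L → Bool) : ℝ :=
  ∑ i : Fin L, ∑ b : Fin M, (1 : ℝ) / M * vv B i b ^ 2

/-- extension by `false` -/
def ext {N : ℕ} (w : Fin N → Bool) (n : ℕ) : Bool := if h : n < N then w ⟨n, h⟩ else false

lemma ext_zw (N : ℕ) (y : ℕ → Bool) (n : ℕ) (hn : n < N) : ext (zw true N y) n = y n := by
  simp [ext, hn, zw]

lemma two_abs_le (R t : ℝ) (ht : 0 < t) : 2 * |R| ≤ t + R ^ 2 / t := by
  have h : 0 ≤ (|R| - t) ^ 2 / t := by positivity
  have e : (|R| - t) ^ 2 / t = t + R ^ 2 / t - 2 * |R| := by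
    rw [← sq_abs R]; field_simp; ring
  linarith

lemma VV_coord (ν : Measure (ℕ → Bool)) [IsProbabilityMeasure ν] (δ : ℝ)
    (hY : Unpred pmask ν true δ) (L M : ℕ) (hM : 0 < M) (θ : ℝ) (hθ : 0 < θ) (i : Fin L) :
    δ - (1 + 2 ^ L) * (θ + 1 / (θ * M)) ≤
      ∑ w, lawp ν (zw true (M * L)) w *
        ∑ b : Fin M, (1 : ℝ) / M * vv (fun b : Fin M => blk L (ext w) b) i b ^ 2 := by
  classical
  set p := lawp ν (zw true (M * L)) with hp
  have hp0 : ∀ w, 0 ≤ p w := lawp_nonneg ν _
  have hp1 : ∑ w, p w = 1 := lawp_sum ν _ (measurable_zw _ _)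
  have hMr : (0 : ℝ) < M := by exact_mod_cast hM
  have hi := i.2
  let c : ℕ → (Fin (M * L) → Bool) → (ℕ → Bool) :=
    fun b w n => if n < b * L + i then ext w n else false
  let f : ℕ → (Fin (M * L) → Bool) → ℝ := fun b w => b2r (ext w (b * L + i))
  let d : ℕ → (Fin (M * L) → Bool) → ℝ := fun b => inn p (c b) (f b)
  let t : ℕ → (Fin (M * L) → Bool) → ℝ := fun b w => cmean p (c b) (f b) (c b w)
  let h : (Fin L → Bool) → ℕ → (Fin (M * L) → Bool) → ℝ :=
    fun κ b w => if pmask i (blk L (ext w) b) = κ then 1 else 0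
  have hcext : ∀ b w w', c b w = c b w' → ∀ n, n < b * L + i → ext w n = ext w' n := by
    intro b w w' e n hn
    have := congrFun e n
    simpa only [c, if_pos hn] using this
  have hcc : ∀ b b', b ≤ b' → Inv (c b') (c b) := by
    intro b b' hb w w' e
    funext n
    simp only [c]
    split_ifs with hn
    · exact hcext b' w w' e n (by nlinarith [Nat.mul_le_mul_right L hb])
    · rfl
  have horth : ∀ b G, Inv (c b) G → ∑ w, p w * (d b w * G w) = 0 :=
    fun b G hG => inn_orth p hp0 (c b) (f b) G hG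
  have hd : ∀ b b', b < b' → Inv (c b') (d b) := by
    intro b b' hb w w' e
    simp only [d, inn, f]
    rw [hcc b b' hb.le w w' e, hcext b' w w' e (b * L + i)
      (by nlinarith [Nat.mul_le_mul_right L (Nat.succ_le_of_lt hb)])]
  have hd1 : ∀ b w, |d b w| ≤ 1 := fun b w =>
    abs_inn_le p hp0 _ _ (fun _ => b2r_nonneg _) (fun _ => b2r_le_one _) w
  have ht1 : ∀ b w, |t b w| ≤ 1 := fun b w => by
    rw [abs_of_nonneg (cmean_nonneg p hp0 _ _ (fun _ => b2r_nonneg _) _)]
    exact cmean_le_one p hp0 _ _ (fun _ => b2r_le_one _) _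
  have R0 := mart_sq p hp0 hp1 c d t horth hd
    (fun b b' hb w w' e => by simp only [t]; rw [hcc b b' hb w w' e]) hd1 ht1 M
  have Rκ := fun κ => mart_sq p hp0 hp1 c d (h κ) horth hd
    (fun b b' hb w w' e => by
      have : pmask i (blk L (ext w) b) = pmask i (blk L (ext w') b) := by
        funext j
        simp only [pmask, blk]
        split_ifs with hj
        · have hj' : (j : ℕ) < i := hj
          exact hcext b' w w' e _ (by nlinarith [Nat.mul_le_mul_right L hb])
        · rfl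
      simp only [h, this]) hd1
    (fun b w => by simp only [h]; split_ifs <;> simp) M
  have hδ : ∀ b, b < M → δ ≤ ∑ w, p w * d b w ^ 2 := by
    intro b hb
    have hlt : b * L + i < M * L := by nlinarith [Nat.mul_le_mul_right L (Nat.succ_le_of_lt hb)]
    have := hY (M * L) ⟨b * L + i, hlt⟩ (t b) (by
      intro w w' e
      have : c b w = c b w' := by
        funext n
        simp only [c]
        split_ifs with hn
        · have hn' : n < M * L := hn.trans hlt
          have := congrFun e ⟨n, hn'⟩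
          simp only [pmask] at this
          rw [if_pos (show (⟨n, hn'⟩ : Fin (M * L)) < ⟨b * L + i, hlt⟩ from hn),
            if_pos (show (⟨n, hn'⟩ : Fin (M * L)) < ⟨b * L + i, hlt⟩ from hn)] at this
          simp only [ext, dif_pos hn', this]
        · rfl
      simp only [t, this])
    refine this.trans (le_of_eq (sum_congr rfl fun w _ => ?_))
    simp only [d, inn, f, t, ext, dif_pos hlt]
    rfl
  have hpt : ∀ w, (1 : ℝ) / M * (∑ b ∈ range M, d b w ^ 2 -
      (θ * M + (∑ b ∈ range M, d b w * t b w) ^ 2 / (θ * M)) -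
      ∑ κ, (θ * M + (∑ b ∈ range M, d b w * h κ b w) ^ 2 / (θ * M))) ≤
      ∑ b : Fin M, (1 : ℝ) / M * vv (fun b : Fin M => blk L (ext w) b) i b ^ 2 := by
    intro w
    rw [← mul_sum]
    refine mul_le_mul_of_nonneg_left ?_ (by positivity)
    set τ : (Fin L → Bool) → ℝ := cmean (fun _ : Fin M => (1 : ℝ) / M)
      (fun b : Fin M => pmask i (blk L (ext w) b)) (fun b : Fin M => b2r (blk L (ext w) b i))
      with hτ
    have hτ0 : ∀ κ, 0 ≤ τ κ := fun κ =>
      cmean_nonneg _ (fun _ => by positivity) _ _ (fun _ => b2r_nonneg _) _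
    have hτ1 : ∀ κ, τ κ ≤ 1 := fun κ =>
      cmean_le_one _ (fun _ => by positivity) _ _ (fun _ => b2r_le_one _) _
    have e1 : ∑ b : Fin M, vv (fun b : Fin M => blk L (ext w) b) i b ^ 2 =
        ∑ b ∈ range M, (f b w - τ (pmask i (blk L (ext w) b))) ^ 2 := by
      rw [← Fin.sum_univ_eq_sum_range (fun b => (f b w - τ (pmask i (blk L (ext w) b))) ^ 2)]
      rfl
    have e2 : ∑ b ∈ range M, d b w * τ (pmask i (blk L (ext w) b)) =
        ∑ κ, τ κ * ∑ b ∈ range M, d b w * h κ b w := by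
      simp_rw [mul_sum]
      rw [sum_comm]
      refine sum_congr rfl fun b _ => ?_
      rw [sum_eq_single (pmask i (blk L (ext w) b))]
      · simp only [h, if_true]; ring
      · intro κ _ hκ
        simp only [h, if_neg (Ne.symm hκ)]; ring
      · simp
    have e3 : ∑ b ∈ range M, d b w ^ 2 + 2 * ∑ b ∈ range M, d b w * t b w -
        2 * ∑ b ∈ range M, d b w * τ (pmask i (blk L (ext w) b)) ≤
        ∑ b ∈ range M, (f b w - τ (pmask i (blk L (ext w) b))) ^ 2 := by
      rw [mul_sum, mul_sum, ← sum_add_distrib, ← sum_sub_distrib]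
      refine sum_le_sum fun b _ => ?_
      have : f b w = d b w + t b w := by simp only [d, inn, t]; ring
      rw [this]
      nlinarith [sq_nonneg (t b w - τ (pmask i (blk L (ext w) b)))]
    rw [e1]
    refine le_trans ?_ e3
    rw [e2]
    have hθM : 0 < θ * M := by positivity
    have a1 := two_abs_le (∑ b ∈ range M, d b w * t b w) _ hθM
    have a2 := neg_abs_le (∑ b ∈ range M, d b w * t b w)
    have a3 : 2 * ∑ κ, τ κ * ∑ b ∈ range M, d b w * h κ b w ≤
        ∑ κ, (θ * M + (∑ b ∈ range M, d b w * h κ b w) ^ 2 / (θ * M)) := by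
      rw [mul_sum]
      refine sum_le_sum fun κ _ => le_trans ?_ (two_abs_le _ _ hθM)
      have b1 := le_abs_self (∑ b ∈ range M, d b w * h κ b w)
      have b2 := abs_nonneg (∑ b ∈ range M, d b w * h κ b w)
      have := hτ0 κ
      have := hτ1 κ
      nlinarith
    linarith
  refine le_trans ?_ (sum_le_sum fun w _ => mul_le_mul_of_nonneg_left (hpt w) (hp0 w))
  have hθM : 0 < θ * M := by positivity
  have e4 : ∑ w, p w * ((1 : ℝ) / M * (∑ b ∈ range M, d b w ^ 2 -
      (θ * M + (∑ b ∈ range M, d b w * t b w) ^ 2 / (θ * M)) -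
      ∑ κ, (θ * M + (∑ b ∈ range M, d b w * h κ b w) ^ 2 / (θ * M)))) =
      (1 : ℝ) / M * (∑ b ∈ range M, ∑ w, p w * d b w ^ 2 -
      (θ * M + (∑ w, p w * (∑ b ∈ range M, d b w * t b w) ^ 2) / (θ * M)) -
      ∑ κ, (θ * M + (∑ w, p w * (∑ b ∈ range M, d b w * h κ b w) ^ 2) / (θ * M))) := by
    have g1 : ∀ R : (Fin (M * L) → Bool) → ℝ, θ * M + (∑ w, p w * R w) / (θ * M) =
        ∑ w, p w * (θ * M + R w / (θ * M)) := by
      intro R
      simp_rw [mul_add]
      rw [sum_add_distrib, ← sum_mul, hp1, one_mul, sum_div]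
      congr 1
      exact sum_congr rfl fun w _ => by ring
    simp_rw [g1]
    rw [sum_comm, sum_comm (s := univ) (t := univ)
      (f := fun κ w => p w * (θ * M + (∑ b ∈ range M, d b w * h κ b w) ^ 2 / (θ * M))),
      ← sum_sub_distrib, ← sum_sub_distrib, mul_sum]
    refine sum_congr rfl fun w _ => ?_
    rw [← mul_sum, ← mul_sum]
    ring
  rw [e4]
  have c1 : M * δ ≤ ∑ b ∈ range M, ∑ w, p w * d b w ^ 2 := by
    calc (M : ℝ) * δ = ∑ _b ∈ range M, δ := by simp
      _ ≤ _ := sum_le_sum fun b hb => hδ b (mem_range.mp hb)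
  have c2 : ∀ R : ℝ, R ≤ M → θ * M + R / (θ * M) ≤ θ * M + 1 / θ := by
    intro R hR
    have : R / (θ * M) ≤ M / (θ * M) := div_le_div_of_nonneg_right hR hθM.le
    have e : (M : ℝ) / (θ * M) = 1 / θ := by field_simp
    linarith
  have c3 : ∑ κ, (θ * M + (∑ w, p w * (∑ b ∈ range M, d b w * h κ b w) ^ 2) / (θ * M)) ≤
      2 ^ L * (θ * M + 1 / θ) := by
    calc _ ≤ ∑ _κ : Fin L → Bool, (θ * M + 1 / θ) := sum_le_sum fun κ _ => c2 _ (Rκ κ)
      _ = _ := by simp; ring
  have c4 := c2 _ R0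
  have e5 : δ - (1 + 2 ^ L) * (θ + 1 / (θ * M)) =
      (1 : ℝ) / M * (M * δ - (θ * M + 1 / θ) - 2 ^ L * (θ * M + 1 / θ)) := by
    field_simp; ring
  rw [e5]
  refine mul_le_mul_of_nonneg_left ?_ (by positivity)
  linarith

lemma VV_integral (ν : Measure (ℕ → Bool)) [IsProbabilityMeasure ν] (δ : ℝ) (hδ : 0 < δ)
    (hY : Unpred pmask ν true δ) (L : ℕ) :
    ∃ M0 : ℕ, 0 < M0 ∧ ∀ M, M0 ≤ M →
      L * (δ / 2) ≤ ∫ y, VV (fun b : Fin M => blk L y b) ∂ν := by
  set θ : ℝ := δ / (4 * (1 + 2 ^ L)) with hθ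
  have hθ0 : 0 < θ := by positivity
  obtain ⟨M0, hM0⟩ := exists_nat_gt (4 * (1 + 2 ^ L) / (θ * δ))
  have hM0' : (0 : ℝ) < M0 := lt_trans (by positivity) hM0
  refine ⟨M0, by exact_mod_cast hM0', fun M hM => ?_⟩
  have hMM : (M0 : ℝ) ≤ M := by exact_mod_cast hM
  have hMr : (0 : ℝ) < M := lt_of_lt_of_le hM0' hMM
  have e1 : ∀ y, VV (fun b : Fin M => blk L y b) =
      VV (fun b : Fin M => blk L (ext (zw true (M * L) y)) b) := by
    intro y
    congr 1
    funext b j
    simp only [blk]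
    rw [ext_zw]
    have := j.2
    nlinarith [Nat.mul_le_mul_right L (Nat.succ_le_of_lt b.2)]
  rw [show (fun y => VV (fun b : Fin M => blk L y b)) =
    fun y => VV (fun b : Fin M => blk L (ext (zw true (M * L) y)) b) from funext e1]
  rw [integral_law ν _ (measurable_zw true (M * L))
    (fun w => VV (fun b : Fin M => blk L (ext w) b))]
  simp only [VV]
  simp_rw [mul_sum (s := (univ : Finset (Fin L)))]
  rw [sum_comm]
  calc (L : ℝ) * (δ / 2) = ∑ _i : Fin L, δ / 2 := by simp
    _ ≤ _ := by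
      refine sum_le_sum fun i _ => le_trans ?_
        (VV_coord ν δ hY L M (by exact_mod_cast hMr) θ hθ0 i)
      have h1 : (1 + 2 ^ L) * θ = δ / 4 := by rw [hθ]; field_simp
      have h2 : (1 + 2 ^ L) * (1 / (θ * M)) ≤ δ / 4 := by
        rw [div_lt_iff₀ (by positivity)] at hM0
        rw [mul_one_div, div_le_iff₀ (by positivity)]
        nlinarith [mul_le_mul_of_nonneg_right hMM (by positivity : 0 ≤ θ * δ)]
      nlinarith

end Pool.Agent.H573Z.SN
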