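import Pool.Agent.H573Z.SN.Code

open MeasureTheory Filter Topology Finset

namespace Pool.Agent.H573Z.SN

lemma shift_iter {Λ : Type*} (n : ℕ) (x : ℕ → Λ) (j : ℕ) : shift^[n] x j = x (n + j) := by
  induction n generalizing x with
  | zero => simp
  | succ n ih =>
    rw [Function.iterate_succ_apply, ih]
    simp only [shift]
    congr 1
    omega

open Classical in
/-- the binary word recording the occurrences of `a` -/
noncomputable def zw {Λ : Type*} (a : Λ) (L : ℕ) (x : ℕ → Λ) : Fin L → Bool :=
  fun j => decide (x j = a)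

/-- keep the coordinates after `k` -/
def fmask {L : ℕ} (k : Fin L) (w : Fin L → Bool) : Fin L → Bool :=
  fun j => if k < j then w j else false

/-- keep the coordinates before `k` -/
def pmask {L : ℕ} (k : Fin L) (w : Fin L → Bool) : Fin L → Bool :=
  fun j => if j < k then w j else false

/-- bits as reals -/
def b2r (b : Bool) : ℝ := if b = true then 1 else 0

lemma b2r_nonneg (b : Bool) : 0 ≤ b2r b := by unfold b2r; split_ifs <;> norm_num
lemma b2r_le_one (b : Bool) : b2r b ≤ 1 := by unfold b2r; split_ifs <;> norm_num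

variable {Λ : Type*} [MeasurableSpace Λ] [DiscreteMeasurableSpace Λ]

lemma measurable_bit (a : Λ) (j : ℕ) :
    Measurable (fun x : ℕ → Λ => @decide (x j = a) (Classical.propDecidable _)) :=
  (Measurable.of_discrete (f := fun b : Λ => @decide (b = a) (Classical.propDecidable _))).comp
    (measurable_pi_apply j)

lemma measurable_zw (a : Λ) (L : ℕ) : Measurable (zw a L) :=
  measurable_pi_lambda _ fun j => measurable_bit a j

omit [DiscreteMeasurableSpace Λ] in
lemma measurable_shift : Measurable (shift : (ℕ → Λ) → (ℕ → Λ)) :=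
  measurable_pi_lambda _ fun n => measurable_pi_apply (n + 1)

/-- unpredictability with respect to a family of masks -/
def Unpred (mask : ∀ {L : ℕ}, Fin L → (Fin L → Bool) → (Fin L → Bool)) (μ : Measure (ℕ → Λ))
    (a : Λ) (δ : ℝ) : Prop :=
  ∀ (L : ℕ) (k : Fin L) (g : (Fin L → Bool) → ℝ), Inv (mask k) g →
    δ ≤ ∑ w, lawp μ (zw a L) w * (b2r (w k) - g w) ^ 2

/-- the occurrences of `a` are encoded by rare error bits -/
def Compress (μ : Measure (ℕ → Λ)) (a : Λ) : Prop :=
  ∀ δ : ℝ, 0 < δ → ∃ (L : ℕ) (e : (ℕ → Λ) → Bool), Measurable e ∧ μ.real (e ⁻¹' {true}) ≤ δ ∧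
    ∀ (n : ℕ) (x x' : ℕ → Λ), (∀ j < L, (x j = a ↔ x' j = a)) →
      (∀ j < L, (x (n + j) = a ↔ x' (n + j) = a)) →
      (∀ i < n, e (shift^[i] x) = e (shift^[i] x')) → ∀ j < n, (x j = a ↔ x' j = a)

lemma exists_err (mask : ∀ {L : ℕ}, Fin L → (Fin L → Bool) → (Fin L → Bool))
    (μ : Measure (ℕ → Λ)) [IsProbabilityMeasure μ] (a : Λ) (δ : ℝ)
    (h : ¬ Unpred mask μ a (δ / 4)) :
    ∃ (L : ℕ) (k : Fin L) (e : (ℕ → Λ) → Bool), Measurable e ∧ μ.real (e ⁻¹' {true}) ≤ δ ∧
      ∀ x x', mask k (zw a L x) = mask k (zw a L x') → e x = e x' → (x k = a ↔ x' k = a) := by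
  classical
  unfold Unpred at h
  push Not at h
  obtain ⟨L, k, g, hg, hlt⟩ := h
  let E : (Fin L → Bool) → Bool := fun w => xor (w k) (decide (1 / 2 < g w))
  refine ⟨L, k, fun x => E (zw a L x), (measurable_of_finite E).comp (measurable_zw a L), ?_, ?_⟩
  · rw [real_preimage_bool μ _ (measurable_zw a L)]
    have : ∑ w, lawp μ (zw a L) w * (if E w = true then 1 else 0) ≤
        4 * ∑ w, lawp μ (zw a L) w * (b2r (w k) - g w) ^ 2 := by
      rw [mul_sum]
      refine sum_le_sum fun w _ => ?_
      have hp := lawp_nonneg μ (zw a L) w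
      have : (if E w = true then (1 : ℝ) else 0) ≤ 4 * (b2r (w k) - g w) ^ 2 := by
        split_ifs with hE
        · simp only [E] at hE
          unfold b2r
          cases hw : w k
          · rw [hw] at hE
            have : 1 / 2 < g w := by simpa using hE
            simp only [Bool.false_eq_true, if_false]
            nlinarith
          · rw [hw] at hE
            have : ¬ (1 / 2 < g w) := by simpa using hE
            push Not at this
            simp only [if_true]
            nlinarith
        · positivity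
      nlinarith
    linarith
  · intro x x' hm he
    have h1 := hg _ _ hm
    simp only [E, h1] at he
    have h2 : zw a L x k = zw a L x' k := by
      cases h3 : decide (1 / 2 < g (zw a L x')) <;> rw [h3] at he <;> simpa using he
    simpa [zw] using h2

lemma compress_of_future (μ : Measure (ℕ → Λ)) [IsProbabilityMeasure μ] (a : Λ)
    (h : ∀ δ, 0 < δ → ¬ Unpred fmask μ a δ) : Compress μ a := by
  intro δ hδ
  obtain ⟨L, k, e, he, hμ, hstep⟩ := exists_err fmask μ a δ (h _ (by positivity))
  refine ⟨L, e, he, hμ, fun n x x' h1 h2 h3 => ?_⟩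
  have key : ∀ m j, j < n + L → n + L - j ≤ m → (x j = a ↔ x' j = a) := by
    intro m
    induction m with
    | zero => intro j hj hm; omega
    | succ m ih =>
      intro j hj hm
      by_cases hL : j < L
      · exact h1 j hL
      by_cases hn : n ≤ j
      · have := h2 (j - n) (by omega)
        rwa [show n + (j - n) = j by omega] at this
      have hk := k.2
      have := hstep (shift^[j - k] x) (shift^[j - k] x') (by
        funext i
        simp only [fmask, zw]
        split_ifs with hi
        · have hi' : (k : ℕ) < i := hi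
          have := i.2
          refine decide_eq_decide.mpr ?_
          rw [shift_iter, shift_iter]
          exact ih _ (by omega) (by omega)
        · rfl) (h3 _ (by omega))
      rwa [shift_iter, shift_iter, show j - k + k = j by omega] at this
  intro j hj
  exact key _ j (by omega) le_rfl

lemma compress_of_past (μ : Measure (ℕ → Λ)) [IsProbabilityMeasure μ] (a : Λ)
    (h : ∀ δ, 0 < δ → ¬ Unpred pmask μ a δ) : Compress μ a := by
  intro δ hδ
  obtain ⟨L, k, e, he, hμ, hstep⟩ := exists_err pmask μ a δ (h _ (by positivity))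
  refine ⟨L, e, he, hμ, fun n x x' h1 _ h3 => ?_⟩
  intro j
  induction j using Nat.strong_induction_on with
  | _ j ih =>
    intro hj
    by_cases hL : j < L
    · exact h1 j hL
    have hk := k.2
    have := hstep (shift^[j - k] x) (shift^[j - k] x') (by
      funext i
      simp only [pmask, zw]
      split_ifs with hi
      · have hi' : (i : ℕ) < k := hi
        refine decide_eq_decide.mpr ?_
        rw [shift_iter, shift_iter]
        exact ih _ (by omega) (by omega)
      · rfl) (h3 _ (by omega))
    rwa [shift_iter, shift_iter, show j - k + k = j by omega] at this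

/-- sets determined by finitely many bits -/
def FinDet (s : Set (ℕ → Λ)) (r : ℕ) (F : Finset Λ) : Prop :=
  ∀ x x' : ℕ → Λ, (∀ j < r, ∀ a ∈ F, (x j = a ↔ x' j = a)) → (x ∈ s ↔ x' ∈ s)

omit [MeasurableSpace Λ] [DiscreteMeasurableSpace Λ] in
lemma FinDet.mono {s : Set (ℕ → Λ)} {r r' : ℕ} {F F' : Finset Λ} (h : FinDet s r F) (hr : r ≤ r')
    (hF : F ⊆ F') : FinDet s r' F' :=
  fun x x' hx => h x x' fun j hj a ha => hx j (lt_of_lt_of_le hj hr) a (hF ha)

lemma FinDet.measurableSet {s : Set (ℕ → Λ)} {r : ℕ} {F : Finset Λ} (h : FinDet s r F) :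
    MeasurableSet s := by
  classical
  let C : (ℕ → Λ) → (Fin r × F → Bool) := fun x p =>
    @decide (x p.1 = p.2) (Classical.propDecidable _)
  have hC : Measurable C := measurable_pi_lambda _ fun p => measurable_bit _ _
  have : s = C ⁻¹' (C '' s) := by
    ext x
    constructor
    · intro hx; exact ⟨x, hx, rfl⟩
    · rintro ⟨x', hx', e⟩
      refine (h x' x fun j hj a ha => ?_).mp hx'
      exact decide_eq_decide.mp (congrFun e (⟨j, hj⟩, ⟨a, ha⟩))
  rw [this]
  exact hC (Set.toFinite _).measurableSet

lemma exists_finDet [Countable Λ] (μ : Measure (ℕ → Λ)) [IsProbabilityMeasure μ]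
    (s : Set (ℕ → Λ)) (hs : MeasurableSet s) (η : ℝ) (hη : 0 < η) :
    ∃ t r F, FinDet t r F ∧ μ.real (symmDiff t s) ≤ η := by
  classical
  let 𝒜 : Set (Set (ℕ → Λ)) := {t | ∃ r F, FinDet t r F}
  have hring : IsSetRing 𝒜 := by
    refine ⟨⟨0, ∅, fun x x' _ => Iff.rfl⟩, ?_, ?_⟩
    · rintro s t ⟨r, F, hs⟩ ⟨r', F', ht⟩
      refine ⟨max r r', F ∪ F', fun x x' hx => ?_⟩
      simp only [Set.mem_union]
      rw [hs.mono (le_max_left _ _) subset_union_left x x' hx,
        ht.mono (le_max_right _ _) subset_union_right x x' hx]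
    · rintro s t ⟨r, F, hs⟩ ⟨r', F', ht⟩
      refine ⟨max r r', F ∪ F', fun x x' hx => ?_⟩
      simp only [Set.mem_sdiff]
      rw [hs.mono (le_max_left _ _) subset_union_left x x' hx,
        ht.mono (le_max_right _ _) subset_union_right x x' hx]
  have hgen : (MeasurableSpace.pi : MeasurableSpace (ℕ → Λ)) = MeasurableSpace.generateFrom 𝒜 := by
    apply le_antisymm
    · refine iSup_le fun j => ?_
      apply Measurable.comap_le
      refine @measurable_to_countable' _ _ _ _ (MeasurableSpace.generateFrom 𝒜) _ fun a => ?_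
      refine MeasurableSpace.measurableSet_generateFrom ⟨j + 1, {a}, fun x x' hx => ?_⟩
      exact hx j (Nat.lt_succ_self j) a (mem_singleton_self a)
    · refine MeasurableSpace.generateFrom_le ?_
      rintro t ⟨r, F, ht⟩
      exact ht.measurableSet
  obtain ⟨t, ⟨r, F, ht⟩, hlt⟩ := exists_measure_symmDiff_lt_of_generateFrom_isSetRing (μ := μ) hring
    ⟨{Set.univ}, Set.countable_singleton _, by
      rintro _ rfl; exact ⟨0, ∅, fun x x' _ => Iff.rfl⟩, by simp⟩ hgen hs
    (ε := ENNReal.ofReal η) (by simpa using hη)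
  refine ⟨t, r, F, ht, ?_⟩
  exact ENNReal.toReal_le_of_le_ofReal hη.le hlt.le

lemma limsup_le_zero (a : ℕ → ℝ) (h : ∀ ε > 0, ∀ᶠ n in atTop, a n ≤ ε) :
    limsup (fun n => ((a n : ℝ) : EReal)) atTop ≤ 0 := by
  apply le_of_forall_gt_imp_ge_of_dense
  intro b hb
  induction b using EReal.rec with
  | bot => exact absurd hb (by simp)
  | top => exact le_top
  | coe b =>
    have hb' : 0 < b := by exact_mod_cast hb
    apply limsup_le_of_le (by isBoundedDefault)
    filter_upwards [h b hb'] with n hn
    exact_mod_cast hn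

lemma shannon_itin_le [Countable Λ] (μ : Measure (ℕ → Λ)) [IsProbabilityMeasure μ]
    (hμ : MeasurePreserving shift μ μ) (h : ∀ a, Compress μ a) {k : ℕ} (P : (ℕ → Λ) → Fin k)
    (hP : Measurable P) (ε : ℝ) (hε : 0 < ε) :
    ∃ C : ℝ, ∀ n : ℕ, shannonEntropy μ (itinerary shift P n) ≤ 2 * ε * n + C := by
  classical
  obtain ⟨θ1, η1, hθ1, hθ1', hη1, hc1⟩ := exists_cost (ε / (k + 1)) (by positivity)
  choose t r F ht hts using fun j : Fin k =>
    exists_finDet μ (P ⁻¹' {j}) (hP (measurableSet_singleton j)) η1 hη1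
  set R : ℕ := univ.sup r with hR
  set G : Finset Λ := univ.biUnion F with hG
  have ht' : ∀ j, FinDet (t j) R G := fun j =>
    (ht j).mono (le_sup (f := r) (mem_univ j)) (subset_biUnion_of_mem F (mem_univ j))
  obtain ⟨θ2, η2, hθ2, hθ2', hη2, hc2⟩ := exists_cost (ε / (G.card + 1)) (by positivity)
  choose L e he heμ hdet using fun a => h a η2 hη2
  set K : ℕ := G.sup L with hK
  refine ⟨ε * R + 2 * (G.card * K) * (2 * Real.log 2), fun n => ?_⟩
  let β : (Fin k × Fin n) ⊕ (G × Fin (n + R)) ⊕ (G × Fin K) ⊕ (G × Fin K) → (ℕ → Λ) → Bool :=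
    fun i x => match i with
      | Sum.inl p => decide (shift^[p.2] x ∈ symmDiff (t p.1) (P ⁻¹' {p.1}))
      | Sum.inr (Sum.inl p) => e p.1 (shift^[p.2] x)
      | Sum.inr (Sum.inr (Sum.inl p)) => @decide (x p.2 = p.1) (Classical.propDecidable _)
      | Sum.inr (Sum.inr (Sum.inr p)) =>
          @decide (x (n + R + p.2) = p.1) (Classical.propDecidable _)
  let θ : (Fin k × Fin n) ⊕ (G × Fin (n + R)) ⊕ (G × Fin K) ⊕ (G × Fin K) → ℝ :=
    fun i => match i with
      | Sum.inl _ => θ1
      | Sum.inr (Sum.inl _) => θ2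
      | Sum.inr (Sum.inr _) => 1 / 2
  have hsd : ∀ j, MeasurableSet (symmDiff (t j) (P ⁻¹' {j})) := fun j =>
    (ht j).measurableSet.symmDiff (hP (measurableSet_singleton j))
  have hβ : ∀ i, Measurable (β i) := by
    rintro (p | p | p | p)
    · refine measurable_to_countable' fun b => ?_
      have hm := (measurable_shift.iterate p.2) (hsd p.1)
      cases b
      · convert hm.compl using 1
        ext x
        simp only [β, Set.mem_preimage, Set.mem_singleton_iff, decide_eq_false_iff_not,
          Set.mem_compl_iff]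
      · convert hm using 1
        ext x
        simp only [β, Set.mem_preimage, Set.mem_singleton_iff, decide_eq_true_eq]
    · exact (he p.1).comp (measurable_shift.iterate p.2)
    · exact measurable_bit _ _
    · exact measurable_bit _ _
  have hmain := shannon_le_code μ (itinerary shift P n) β hβ ?_ θ ?_ ?_
  · refine hmain.trans ?_
    simp only [Fintype.sum_sum_type]
    have half : ∀ s : Set (ℕ → Λ), μ.real s * (-Real.log (1 / 2)) + (-Real.log (1 - 1 / 2)) ≤
        2 * Real.log 2 := by
      intro s
      have h1 : μ.real s ≤ 1 := measureReal_le_one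
      have h2 : (1 : ℝ) - 1 / 2 = 1 / 2 := by norm_num
      have h3 : Real.log (1 / 2) = -Real.log 2 := by rw [one_div, Real.log_inv]
      have h4 : 0 < Real.log 2 := Real.log_pos (by norm_num)
      rw [h2, h3]; nlinarith
    have b1 : ∑ p : Fin k × Fin n, (μ.real (β (Sum.inl p) ⁻¹' {true}) *
        (-Real.log (θ (Sum.inl p))) + (-Real.log (1 - θ (Sum.inl p)))) ≤ ε * n := by
      calc _ ≤ ∑ _p : Fin k × Fin n, ε / (k + 1) := by
            refine sum_le_sum fun p _ => hc1 _ ?_
            have : β (Sum.inl p) ⁻¹' {true} = shift^[p.2] ⁻¹' symmDiff (t p.1) (P ⁻¹' {p.1}) := by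
              ext x
              simp only [β, Set.mem_preimage, Set.mem_singleton_iff, decide_eq_true_eq]
            rw [this, (hμ.iterate p.2).measureReal_preimage (hsd p.1).nullMeasurableSet]
            exact hts p.1
        _ = (k / (k + 1)) * (ε * n) := by
            simp only [sum_const, card_univ, Fintype.card_prod, Fintype.card_fin, nsmul_eq_mul]
            push_cast; field_simp
        _ ≤ ε * n := by
            refine mul_le_of_le_one_left (by positivity) ?_
            rw [div_le_one (by positivity)]; linarith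
    have b2 : ∑ p : G × Fin (n + R), (μ.real (β (Sum.inr (Sum.inl p)) ⁻¹' {true}) *
        (-Real.log (θ (Sum.inr (Sum.inl p)))) + (-Real.log (1 - θ (Sum.inr (Sum.inl p))))) ≤
        ε * (n + R) := by
      calc _ ≤ ∑ _p : G × Fin (n + R), ε / (G.card + 1) := by
            refine sum_le_sum fun p _ => hc2 _ ?_
            have : β (Sum.inr (Sum.inl p)) ⁻¹' {true} = shift^[p.2] ⁻¹' (e p.1 ⁻¹' {true}) := rfl
            rw [this, (hμ.iterate p.2).measureReal_preimage
              (he p.1 (measurableSet_singleton _)).nullMeasurableSet]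
            exact heμ p.1
        _ = (G.card / (G.card + 1)) * (ε * (n + R)) := by
            simp only [sum_const, card_univ, Fintype.card_prod, Fintype.card_fin, nsmul_eq_mul,
              Fintype.card_coe]
            push_cast; field_simp
        _ ≤ ε * (n + R) := by
            refine mul_le_of_le_one_left (by positivity) ?_
            rw [div_le_one (by positivity)]; linarith
    have b3 : ∀ s : G × Fin K → Set (ℕ → Λ), ∑ p : G × Fin K, (μ.real (s p) *
        (-Real.log (1 / 2)) + (-Real.log (1 - 1 / 2))) ≤ (G.card * K) * (2 * Real.log 2) := by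
      intro s
      calc _ ≤ ∑ _p : G × Fin K, 2 * Real.log 2 := sum_le_sum fun p _ => half _
        _ = _ := by
            simp only [sum_const, card_univ, Fintype.card_prod, Fintype.card_fin, nsmul_eq_mul,
              Fintype.card_coe]
            push_cast; ring
    have b4 := b3 (fun p => β (Sum.inr (Sum.inr (Sum.inl p))) ⁻¹' {true})
    have b5 := b3 (fun p => β (Sum.inr (Sum.inr (Sum.inr p))) ⁻¹' {true})
    simp only [θ] at b1 b2 ⊢
    linarith
  · intro x x' hx
    have hag : ∀ a ∈ G, ∀ j < n + R, (x j = a ↔ x' j = a) := by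
      intro a ha
      have hLK : L a ≤ K := le_sup (f := L) ha
      refine hdet a (n + R) x x' (fun j hj => ?_) (fun j hj => ?_) (fun i hi => ?_)
      · exact decide_eq_decide.mp (hx (Sum.inr (Sum.inr (Sum.inl (⟨a, ha⟩, ⟨j, by omega⟩)))))
      · exact decide_eq_decide.mp (hx (Sum.inr (Sum.inr (Sum.inr (⟨a, ha⟩, ⟨j, by omega⟩)))))
      · exact hx (Sum.inr (Sum.inl (⟨a, ha⟩, ⟨i, hi⟩)))
    funext i
    have h1 := decide_eq_decide.mp (hx (Sum.inl (P (shift^[i] x), i)))
    have h2 := ht' (P (shift^[i] x)) (shift^[i] x) (shift^[i] x') (fun j hj a ha => by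
      rw [shift_iter, shift_iter]
      exact hag a ha _ (by have := i.2; omega))
    simp only [Set.mem_symmDiff, Set.mem_preimage, Set.mem_singleton_iff] at h1
    show P (shift^[i] x) = P (shift^[i] x')
    by_contra hne
    have hne' : ¬ P (shift^[i] x') = P (shift^[i] x) := fun h => hne h.symm
    tauto
  · rintro (p | p | p) <;> simp [θ, hθ1, hθ2]
  · rintro (p | p | p) <;> simp [θ, hθ1', hθ2']
    norm_num

lemma ks_le_zero [Countable Λ] (μ : Measure (ℕ → Λ)) [IsProbabilityMeasure μ]
    (hμ : MeasurePreserving shift μ μ) (h : ∀ a, Compress μ a) : ksEntropy μ shift ≤ 0 := by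
  unfold ksEntropy
  refine iSup_le fun k => iSup_le fun P => iSup_le fun hP => ?_
  refine limsup_le_zero _ fun ε hε => ?_
  obtain ⟨C, hC⟩ := shannon_itin_le μ hμ h P hP (ε / 4) (by positivity)
  have : Tendsto (fun n : ℕ => C / (n : ℝ)) atTop (𝓝 0) := tendsto_const_div_atTop_nhds_zero_nat C
  filter_upwards [this.eventually (gt_mem_nhds (half_pos hε)), eventually_gt_atTop 0] with n hn hn0
  have h1 : (0 : ℝ) < n := by exact_mod_cast hn0
  rw [div_lt_iff₀ h1] at hn
  rw [div_le_iff₀ h1]
  linarith [hC n]

lemma ks_nonneg {X : Type*} [MeasurableSpace X] (μ : Measure X) [IsProbabilityMeasure μ]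
    (T : X → X) : 0 ≤ ksEntropy μ T := by
  unfold ksEntropy
  refine le_iSup_of_le 1 (le_iSup_of_le (fun _ => (0 : Fin 1))
    (le_iSup_of_le measurable_const ?_))
  unfold partitionEntropy
  apply le_limsup_of_frequently_le
  · apply Frequently.of_forall
    intro n
    have : (0 : ℝ) ≤ shannonEntropy μ (itinerary T (fun _ => (0 : Fin 1)) n) / n :=
      div_nonneg (sum_nonneg fun _ _ =>
        Real.negMulLog_nonneg measureReal_nonneg measureReal_le_one) (Nat.cast_nonneg n)
    exact_mod_cast this
  · isBoundedDefault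

theorem exists_unpred_future [Countable Λ] (μ : Measure (ℕ → Λ)) [IsProbabilityMeasure μ]
    (hμ : MeasurePreserving shift μ μ) (h : 0 < ksEntropy μ shift) :
    ∃ a δ, 0 < δ ∧ Unpred fmask μ a δ := by
  by_contra hc
  push Not at hc
  exact absurd (ks_le_zero μ hμ fun a => compress_of_future μ a (hc a)) (not_le.mpr h)

theorem exists_unpred_past (ν : Measure (ℕ → Bool)) [IsProbabilityMeasure ν]
    (hν : MeasurePreserving shift ν ν) (h : ksEntropy ν shift ≠ 0) :
    ∃ δ, 0 < δ ∧ Unpred pmask ν true δ := by
  have h1 : ∃ a δ, 0 < δ ∧ Unpred pmask ν a δ := by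
    by_contra hc
    push Not at hc
    exact h (le_antisymm (ks_le_zero ν hν fun a => compress_of_past ν a (hc a)) (ks_nonneg ν _))
  obtain ⟨a, δ, hδ, hu⟩ := h1
  cases a
  · refine ⟨δ, hδ, fun L k g hg => ?_⟩
    have h2 := hu L k (fun w => 1 - g (fun j => !(w j))) (by
      intro w w' e
      beta_reduce
      rw [hg (fun j => !(w j)) (fun j => !(w' j))]
      funext j
      have := congrFun e j
      simp only [pmask] at this ⊢
      split_ifs with hj
      · rw [if_pos hj, if_pos hj] at this; rw [this]
      · rfl)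
    rw [← integral_law ν _ (measurable_zw false L)
      (fun w => (b2r (w k) - (1 - g (fun j => !(w j)))) ^ 2)] at h2
    rw [← integral_law ν _ (measurable_zw true L) (fun w => (b2r (w k) - g w) ^ 2)]
    refine h2.trans (le_of_eq ?_)
    congr 1
    funext y
    have e1 : (fun j => !(zw false L y j)) = zw true L y := by
      funext j; simp only [zw]; cases y j <;> simp
    rw [e1]
    have e2 : b2r (zw false L y k) = 1 - b2r (zw true L y k) := by
      rw [← e1]; beta_reduce; cases zw false L y k <;> simp [b2r]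
    rw [e2]; ring
  · exact ⟨δ, hδ, hu⟩

end Pool.Agent.H573Z.SN
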