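import Pool.Agent.H573Z.SN.Win2

open MeasureTheory Filter Topology Finset

namespace Pool.Agent.H573Z.SN

variable {Λ : Type*} [MeasurableSpace Λ] [DiscreteMeasurableSpace Λ]

lemma sum_phase (φ : ℕ → ℝ) (l T : ℕ) :
    ∑ n ∈ range (T * l), φ n = ∑ r ∈ range l, ∑ t ∈ range T, φ (t * l + r) := by
  induction T with
  | zero => simp
  | succ T ih =>
    rw [add_mul, one_mul, sum_range_add, ih, ← sum_add_distrib]
    exact sum_congr rfl fun r _ => by rw [sum_range_succ]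

lemma stage (μ : Measure (ℕ → Λ)) [IsProbabilityMeasure μ] (hμ : MeasurePreserving shift μ μ)
    (a : Λ) (δ : ℝ) (hδ : 0 < δ) (hX : Unpred fmask μ a δ)
    (ν : Measure (ℕ → Bool)) [IsProbabilityMeasure ν] (δ' : ℝ) (hδ' : 0 < δ')
    (hY : Unpred pmask ν true δ') (y : ℕ → Bool) (Ns : ℕ → ℕ) (hNs : StrictMono Ns)
    (hconv : ∀ f : C(ℕ → Bool, ℝ), Tendsto
      (fun j => (∑ n ∈ range (Ns j), f (shift^[n] y)) / (Ns j : ℝ)) atTop (𝓝 (∫ y, f y ∂ν)))
    (𝔅 : Finset (Σ k : ℕ, Fin k → Λ)) (ε : ℝ) (hε : 0 < ε) (hε' : ε ≤ δ * δ' / 12) :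
    ∃ C : ℕ, ∀ T0 : ℕ, ∃ N : ℕ, T0 ≤ N ∧ ∃ z : ℕ → Λ,
      (∀ B ∈ 𝔅, ∀ t : ℕ, |DD μ B z t| ≤ 3 * ε * t + C) ∧ δ * δ' / 4 * N ≤ Gam μ a z y N := by
  obtain ⟨l, hl, hBl, G, hG, hz⟩ := window μ hμ a δ hδ hX ν δ' hδ' hY 𝔅 ε hε
  choose zf hzf1 hzf2 using hz
  set c := δ * δ' / 2 with hc
  have hc0 : 0 < c := by positivity
  have hlr : (0 : ℝ) < l := by exact_mod_cast hl
  refine ⟨2 * l, fun T0 => ?_⟩
  have h1 : ∀ᶠ j in atTop, c - ε < (∑ n ∈ range (Ns j), G (shift^[n] y)) / (Ns j : ℝ) :=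
    (hconv G).eventually (lt_mem_nhds (by linarith))
  have h2 : ∀ᶠ j in atTop, T0 + l ≤ Ns j := hNs.tendsto_atTop.eventually_ge_atTop _
  have h3 : ∀ᶠ j in atTop, l * (1 + ‖G‖ + c) / ε ≤ (Ns j : ℝ) :=
    (tendsto_natCast_atTop_atTop.comp hNs.tendsto_atTop).eventually_ge_atTop _
  obtain ⟨j, hj1, hj2, hj3⟩ := (h1.and (h2.and h3)).exists
  set N0 := Ns j with hN0
  have hN0r : (0 : ℝ) < N0 := by exact_mod_cast (by omega : 0 < N0)
  rw [lt_div_iff₀ hN0r] at hj1
  rw [div_le_iff₀ hε] at hj3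
  set T := N0 / l with hT
  have hdm : T * l + N0 % l = N0 := by rw [hT, mul_comm]; exact Nat.div_add_mod N0 l
  have hml : N0 % l < l := Nat.mod_lt _ hl
  have hsum : (c - ε) * N0 - l * ‖G‖ ≤ ∑ n ∈ range (T * l), G (shift^[n] y) := by
    have e : ∑ n ∈ range N0, G (shift^[n] y) = ∑ n ∈ range (T * l), G (shift^[n] y) +
        ∑ n ∈ range (N0 % l), G (shift^[T * l + n] y) := by
      rw [← sum_range_add (fun n => G (shift^[n] y)), hdm]
    have b : ∑ n ∈ range (N0 % l), G (shift^[T * l + n] y) ≤ l * ‖G‖ := by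
      calc _ ≤ ∑ _n ∈ range (N0 % l), ‖G‖ :=
            sum_le_sum fun n _ => (le_abs_self _).trans (G.norm_coe_le_norm _)
        _ = (N0 % l : ℕ) * ‖G‖ := by simp
        _ ≤ l * ‖G‖ := mul_le_mul_of_nonneg_right (by exact_mod_cast hml.le) (norm_nonneg _)
    linarith
  rw [sum_phase] at hsum
  obtain ⟨r, hr, hrs⟩ := exists_le_of_sum_le (s := range l) (nonempty_range_iff.mpr hl.ne')
    (f := fun _ => ((c - ε) * N0 - l * ‖G‖) / l)
    (g := fun r => ∑ t ∈ range T, G (shift^[t * l + r] y)) (by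
      rw [sum_const, card_range, nsmul_eq_mul, mul_div_cancel₀ _ hlr.ne']
      exact hsum)
  have hrl : r < l := mem_range.mp hr
  rw [div_le_iff₀ hlr] at hrs
  let Z : ℕ → ℕ → Λ := fun t => zf (shift^[t * l + r] y)
  let z : ℕ → Λ := fun n => cat l Z (n - r)
  have hzr : shift^[r] z = cat l Z := by
    funext i; rw [shift_iter]; simp only [z]; congr 1; omega
  have hrr : (r : ℝ) ≤ l := by exact_mod_cast hrl.le
  refine ⟨r + T * l, by omega, z, fun B hB t => ?_, ?_⟩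
  · by_cases ht : t ≤ r
    · have h1 := abs_DD_le μ B z t
      have h2 : (t : ℝ) ≤ r := by exact_mod_cast ht
      push_cast
      have : 0 ≤ 3 * ε * t := by positivity
      linarith
    · obtain ⟨s, rfl⟩ := Nat.exists_eq_add_of_le (not_le.mp ht).le
      have hs : s / l * l + s % l = s := by rw [mul_comm]; exact Nat.div_add_mod s l
      have hs2 : s % l < l := Nat.mod_lt _ hl
      rw [DD_add, hzr]
      conv_lhs => rw [← hs]
      rw [DD_add]
      have a1 := abs_le.mp (abs_DD_le μ B z r)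
      have a2 := abs_le.mp (abs_DD_le μ B (shift^[s / l * l] (cat l Z)) (s % l))
      have a3 := abs_le.mp (DD_cat μ B l Z (s / l))
      have a4 : |∑ t ∈ range (s / l), DD μ B (Z t) l| ≤ (s / l : ℕ) * (2 * ε * l) := by
        calc _ ≤ ∑ t ∈ range (s / l), |DD μ B (Z t) l| := abs_sum_le_sum_abs _ _
          _ ≤ ∑ _t ∈ range (s / l), 2 * ε * l := sum_le_sum fun t _ => hzf1 _ B hB
          _ = _ := by simp
      have a5 := abs_le.mp a4
      have a6 : ((s % l : ℕ) : ℝ) ≤ l := by exact_mod_cast hs2.le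
      have a7 := mul_le_mul_of_nonneg_left (hBl B hB) (Nat.cast_nonneg (α := ℝ) (s / l))
      have a8 : ((s / l : ℕ) : ℝ) * l ≤ s := by exact_mod_cast (by omega : s / l * l ≤ s)
      have a9 := mul_le_mul_of_nonneg_left a8 hε.le
      have a10 : 0 ≤ ε * r := by positivity
      rw [abs_le]
      rw [Nat.cast_add, Nat.cast_mul, Nat.cast_ofNat]
      constructor <;> nlinarith
  · rw [Gam_add, hzr, Gam_cat]
    have a1 := abs_le.mp (abs_Gam_le μ a z y r)
    have a2 : ∑ t ∈ range T, (G (shift^[t * l + r] y) - ε) * l ≤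
        ∑ t ∈ range T, Gam μ a (Z t) (shift^[t * l] (shift^[r] y)) l := by
      refine sum_le_sum fun t _ => ?_
      rw [← Function.iterate_add_apply]
      exact hzf2 _
    rw [← sum_mul, sum_sub_distrib, sum_const, card_range, nsmul_eq_mul] at a2
    have a3 : (T : ℝ) * l ≤ N0 := by exact_mod_cast (by omega : T * l ≤ N0)
    have a4 := mul_le_mul_of_nonneg_left a3 hε.le
    have a5 := mul_le_mul_of_nonneg_left a3 hc0.le
    have a6 := mul_le_mul_of_nonneg_left hrr hc0.le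
    have a7 : δ * δ' / 4 = c / 2 := by rw [hc]; ring
    have a8 : ε ≤ c / 6 := by rw [hc]; linarith
    have a9 := mul_le_mul_of_nonneg_right a8 hN0r.le
    have a10 : 0 < c * l := by positivity
    rw [a7]
    push_cast
    nlinarith

omit [DiscreteMeasurableSpace Λ] in
lemma piece (μ : Measure (ℕ → Λ)) (B : Σ k : ℕ, Fin k → Λ) (x z : ℕ → Λ) (s t : ℕ) (hst : s ≤ t)
    (h : ∀ m, s ≤ m → m < t → x m = z m) (E : ℝ) (hs : |DD μ B z s| ≤ E) (ht : |DD μ B z t| ≤ E) :
    |DD μ B x t - DD μ B x s| ≤ B.1 + 2 * E := by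
  obtain ⟨d, rfl⟩ := Nat.exists_eq_add_of_le hst
  rw [DD_add] at ht ⊢
  have h1 := abs_le.mp (DD_agree μ B (shift^[s] x) (shift^[s] z) d (fun i hi => by
    rw [shift_iter, shift_iter]; exact h _ (by omega) (by omega)))
  have h2 := abs_le.mp hs
  have h3 := abs_le.mp ht
  rw [abs_le]
  constructor <;> linarith

open Classical in
lemma ncard_eq_sum (A : Set ℕ) (N : ℕ) :
    ((A ∩ Set.Iio N).ncard : ℝ) = ∑ n ∈ range N, (if n ∈ A then (1 : ℝ) else 0) := by
  have : A ∩ Set.Iio N = ↑((range N).filter (fun n => n ∈ A)) := by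
    ext n; simp [and_comm]
  rw [this, Set.ncard_coe_finset]
  simp

omit [DiscreteMeasurableSpace Λ] in
lemma generic_of_DD (μ : Measure (ℕ → Λ)) (x : ℕ → Λ)
    (h : ∀ B : Σ k : ℕ, Fin k → Λ, ∀ η : ℝ, 0 < η → ∀ᶠ N : ℕ in atTop, |DD μ B x N| ≤ η * N) :
    Generic μ x := by
  intro k B
  rw [Metric.tendsto_nhds]
  intro η hη
  filter_upwards [h ⟨k, B⟩ (η / 2) (by positivity), eventually_gt_atTop 0] with N hN hN0
  have hNr : (0 : ℝ) < N := by exact_mod_cast hN0
  have e : freq {n | shift^[n] x ∈ cyl B} N - μ.real (cyl B) = DD μ ⟨k, B⟩ x N / N := by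
    unfold freq DD dev
    rw [ncard_eq_sum, sum_sub_distrib, sum_const, card_range, nsmul_eq_mul, sub_div,
      mul_div_cancel_left₀ _ hNr.ne']
    rfl
  rw [Real.dist_eq, e, abs_div, abs_of_pos hNr, div_lt_iff₀ hNr]
  nlinarith

open Classical in
omit [DiscreteMeasurableSpace Λ] in
lemma Gam_indic (μ : Measure (ℕ → Λ)) (a : Λ) (x : ℕ → Λ) (S : Set ℕ) (N : ℕ) :
    Gam μ a x (indic S) N =
      ∑ j ∈ range (Nat.count (fun m => m ∈ S) N), FF μ a (restrictTo x S j) := by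
  induction N with
  | zero => simp [Gam]
  | succ N ih =>
    unfold Gam at ih ⊢
    rw [sum_range_succ, ih, Nat.count_succ]
    by_cases h : N ∈ S
    · rw [if_pos h, sum_range_succ]
      simp only [restrictTo, Nat.nth_count (p := fun m => m ∈ S) h, indic, b2r, h, decide_true,
        if_true, mul_one]
    · rw [if_neg h]
      simp [indic, b2r, h]

omit [DiscreteMeasurableSpace Λ] in
lemma Gam_small (μ : Measure (ℕ → Λ)) (a : Λ) (x : ℕ → Λ) (S : Set ℕ) (hS : S.Infinite)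
    (h : SimplyNormal μ (restrictTo x S)) (η : ℝ) (hη : 0 < η) :
    ∀ᶠ N : ℕ in atTop, Gam μ a x (indic S) N ≤ η * N := by
  classical
  have h1 := Metric.tendsto_nhds.mp (h a) η hη
  obtain ⟨m1, hm1⟩ := eventually_atTop.mp (h1.and (eventually_gt_atTop 0))
  filter_upwards [eventually_ge_atTop (Nat.nth (fun m => m ∈ S) m1)] with N hN
  rw [Gam_indic]
  set m := Nat.count (fun m => m ∈ S) N with hm
  have h2 : m1 ≤ m := by
    have := Nat.count_monotone (fun m => m ∈ S) hN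
    rwa [Nat.count_nth_of_infinite (p := fun m => m ∈ S) hS] at this
  have h3 : m ≤ N := Nat.count_le _
  obtain ⟨h4, h5⟩ := hm1 m h2
  have hmr : (0 : ℝ) < m := by exact_mod_cast h5
  have e : freq {n | restrictTo x S n = a} m - μ.real {x | x 0 = a} =
      (∑ j ∈ range m, FF μ a (restrictTo x S j)) / m := by
    unfold freq FF
    rw [ncard_eq_sum, sum_sub_distrib, sum_const, card_range, nsmul_eq_mul, sub_div,
      mul_div_cancel_left₀ _ hmr.ne']
    rfl
  rw [Real.dist_eq, e] at h4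
  have h6 := (abs_lt.mp h4).2
  rw [div_lt_iff₀ hmr] at h6
  have h7 : (m : ℝ) ≤ N := by exact_mod_cast h3
  nlinarith

theorem main [Countable Λ] (μ : Measure (ℕ → Λ)) [IsProbabilityMeasure μ]
    (hμ : MeasurePreserving shift μ μ) (hpos : 0 < ksEntropy μ shift) (S : Set ℕ)
    (hS : S.Infinite) (hdet : ¬ Deterministic S) : ¬ PreservesSimple μ S := by
  classical
  intro hpres
  unfold Deterministic at hdet
  push Not at hdet
  obtain ⟨ν, ⟨hν1, hν, Ns, hNs, hconv⟩, hν0⟩ := hdet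
  obtain ⟨a, δ, hδ, hX⟩ := exists_unpred_future μ hμ hpos
  obtain ⟨δ', hδ', hY⟩ := exists_unpred_past ν hν hν0
  have : Nonempty (Σ k : ℕ, Fin k → Λ) := ⟨⟨0, fun i => i.elim0⟩⟩
  obtain ⟨enum, henum⟩ := exists_surjective_nat (Σ k : ℕ, Fin k → Λ)
  set c := δ * δ' / 12 with hc
  have hc0 : 0 < c := by positivity
  have hst := fun k : ℕ => stage μ hμ a δ hδ hX ν δ' hδ' hY (indic S) Ns hNs hconv
    ((range (k + 1)).image enum) (c / (k + 1)) (by positivity)
    (div_le_self hc0.le (by linarith [Nat.cast_nonneg (α := ℝ) k]))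
  choose C hC using hst
  choose Nf hNf zf hz1 hz2 using hC
  let T : ℕ → ℕ → ℕ := fun k m => (k + 1) * (m + C k + C (k + 1) + 1)
  obtain ⟨n, hn⟩ : ∃ n : ℕ → ℕ, ∀ k, n (k + 1) = Nf k (T k (n k)) :=
    ⟨fun k => Nat.rec 0 (fun k m => Nf k (T k m)) k, fun k => rfl⟩
  have hgrow : ∀ k, (k + 1) * (n k + C k + C (k + 1) + 1) ≤ n (k + 1) := fun k => by
    rw [hn k]; exact hNf k _
  have hmono : StrictMono n := strictMono_nat_of_lt_succ fun k => by
    have := hgrow k
    nlinarith [Nat.zero_le (k * (n k + C k + C (k + 1) + 1)), Nat.zero_le (C k),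
      Nat.zero_le (C (k + 1))]
  have hex : ∀ m, ∃ k, m < n (k + 1) := fun m =>
    ⟨m, lt_of_lt_of_le (Nat.lt_succ_self m) (hmono.id_le (m + 1))⟩
  let z : ℕ → ℕ → Λ := fun k => zf k (T k (n k))
  let x : ℕ → Λ := fun m => z (Nat.find (hex m)) m
  have hx : ∀ k m, n k ≤ m → m < n (k + 1) → x m = z k m := by
    intro k m h1 h2
    have : Nat.find (hex m) = k := by
      rw [Nat.find_eq_iff]
      refine ⟨h2, fun k' hk' => not_lt.mpr ((hmono.monotone (Nat.succ_le_of_lt hk')).trans h1)⟩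
    simp only [x, this]
  have hgrow' : ∀ k : ℕ, (Nat.cast (n k) : ℝ) + (Nat.cast (C k) : ℝ) + (Nat.cast (C (k + 1)) : ℝ) ≤
      (Nat.cast (n (k + 1)) : ℝ) / ((k : ℝ) + 1) := by
    intro k
    rw [le_div_iff₀ (by positivity)]
    have : (((k + 1) * (n k + C k + C (k + 1) + 1) : ℕ) : ℝ) ≤ n (k + 1) := by
      exact_mod_cast hgrow k
    push_cast at this
    nlinarith [Nat.cast_nonneg (α := ℝ) k]
  have hgen : Generic μ x := by
    refine generic_of_DD μ x fun B η hη => ?_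
    obtain ⟨k0, rfl⟩ := henum B
    obtain ⟨K1, hK1⟩ := exists_nat_ge ((2 + 12 * c) / (η / 2))
    obtain ⟨N1, hN1⟩ := exists_nat_ge (2 * ((enum k0).1 : ℝ) / (η / 2))
    filter_upwards [eventually_ge_atTop (n (k0 + K1 + 1)), eventually_ge_atTop N1] with N hN hN'
    obtain ⟨k, hk1, hk2, hk3⟩ : ∃ k, k0 + K1 ≤ k ∧ n (k + 1) ≤ N ∧ N < n (k + 2) := by
      have h1 := Nat.find_spec (hex N)
      have h2 : k0 + K1 + 1 ≤ Nat.find (hex N) := by
        rw [Nat.le_find_iff]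
        intro m hm
        exact not_lt.mpr ((hmono.monotone (Nat.succ_le_of_lt hm)).trans hN)
      obtain ⟨k, hk⟩ : ∃ k, Nat.find (hex N) = k + 1 := ⟨Nat.find (hex N) - 1, by omega⟩
      refine ⟨k, by omega, ?_, by rwa [hk] at h1⟩
      exact not_lt.mp (Nat.find_min (hex N) (by omega : k < Nat.find (hex N)))
    have hB : ∀ k', k0 ≤ k' → enum k0 ∈ (range (k' + 1)).image enum := fun k' hk' =>
      mem_image_of_mem _ (mem_range.mpr (by omega))
    have hkr : (0 : ℝ) < k + 1 := by positivity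
    have hNr : (n (k + 1) : ℝ) ≤ N := by exact_mod_cast hk2
    have hnk : (n k : ℝ) ≤ n (k + 1) := by exact_mod_cast (hmono (Nat.lt_succ_self k)).le
    have hε1 : c / ((k + 1 : ℕ) + 1) ≤ c / (k + 1) :=
      div_le_div_of_nonneg_left hc0.le hkr (by push_cast; linarith)
    have hε0 : 0 < c / ((k + 1 : ℕ) + 1) := by positivity
    have hε2 : 0 < c / (k + 1) := by positivity
    have p1 := piece μ (enum k0) x (z k) (n k) (n (k + 1)) (hmono (Nat.lt_succ_self k)).le
      (hx k) (3 * (c / (k + 1)) * N + C k)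
      ((hz1 k _ _ (hB k (by omega)) _).trans (by nlinarith))
      ((hz1 k _ _ (hB k (by omega)) _).trans (by nlinarith))
    have p2 := piece μ (enum k0) x (z (k + 1)) (n (k + 1)) N hk2
      (fun m h1 h2 => hx (k + 1) m h1 (h2.trans hk3)) (3 * (c / (k + 1)) * N + C (k + 1))
      ((hz1 (k + 1) _ _ (hB (k + 1) (by omega)) _).trans (by
        nlinarith [Nat.cast_nonneg (α := ℝ) (n (k + 1))]))
      ((hz1 (k + 1) _ _ (hB (k + 1) (by omega)) _).trans (by
        nlinarith [Nat.cast_nonneg (α := ℝ) N]))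
    have p3 := abs_le.mp (abs_DD_le μ (enum k0) x (n k))
    have p4 := hgrow' k
    have p5 : (n (k + 1) : ℝ) / (k + 1) ≤ N / (k + 1) := div_le_div_of_nonneg_right hNr hkr.le
    have p6 : (2 + 12 * c) / (k + 1) ≤ η / 2 := by
      rw [div_le_iff₀ (by positivity)] at hK1
      rw [div_le_iff₀ hkr]
      have : (K1 : ℝ) ≤ k := by exact_mod_cast (by omega : K1 ≤ k)
      nlinarith
    have p7 : 2 * ((enum k0).1 : ℝ) ≤ η / 2 * N := by
      rw [div_le_iff₀ (by positivity)] at hN1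
      have : (N1 : ℝ) ≤ N := by exact_mod_cast hN'
      nlinarith
    have p8 := mul_le_mul_of_nonneg_right p6 (Nat.cast_nonneg (α := ℝ) N)
    have p9 : (2 + 12 * c) / (k + 1) * N = 2 * (N / (k + 1)) + 12 * (c / (k + 1)) * N := by ring
    have q1 := abs_le.mp p1
    have q2 := abs_le.mp p2
    have q3 := Nat.cast_nonneg (α := ℝ) (n k)
    rw [abs_le]
    constructor <;> linarith
  have hsmall := Gam_small μ a x S hS (hpres x hgen) c hc0
  obtain ⟨N2, hN2⟩ := eventually_atTop.mp hsmall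
  obtain ⟨K2, hK2⟩ := exists_nat_ge (2 / c)
  set k := N2 + K2 with hk
  have h1 := hN2 (n (k + 1)) ((by omega : N2 ≤ k + 1).trans (hmono.id_le (k + 1)))
  have h2 : δ * δ' / 4 * (n (k + 1)) ≤ Gam μ a (z k) (indic S) (n (k + 1)) := by
    rw [hn k]; exact hz2 k _
  obtain ⟨d, hd⟩ := Nat.exists_eq_add_of_le (hmono (Nat.lt_succ_self k)).le
  have hd' : n (k + 1) = n k + d := hd
  have h3 : Gam μ a x (indic S) (n (k + 1)) - Gam μ a x (indic S) (n k) =
      Gam μ a (z k) (indic S) (n (k + 1)) - Gam μ a (z k) (indic S) (n k) := by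
    rw [hd', Gam_add, Gam_add, Gam_agree μ a (shift^[n k] x) (shift^[n k] (z k)) _ d
      (fun i hi => by rw [shift_iter, shift_iter]; exact hx k _ (by omega) (by omega))]
    ring
  have h4 := abs_le.mp (abs_Gam_le μ a x (indic S) (n k))
  have h5 := abs_le.mp (abs_Gam_le μ a (z k) (indic S) (n k))
  have h6 := hgrow' k
  have hkr : (0 : ℝ) < k + 1 := by positivity
  have h7 : (0 : ℝ) < n (k + 1) := by
    exact_mod_cast lt_of_lt_of_le (Nat.succ_pos k) (hmono.id_le (k + 1))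
  have h8 : 2 * ((n (k + 1) : ℝ) / (k + 1)) ≤ c * n (k + 1) := by
    rw [div_le_iff₀ hc0] at hK2
    rw [← mul_div_assoc, div_le_iff₀ hkr]
    have : (K2 : ℝ) ≤ k := by exact_mod_cast (by omega : K2 ≤ k)
    nlinarith [mul_le_mul_of_nonneg_right this hc0.le, mul_pos hc0 h7]
  have h9 : δ * δ' / 4 = 3 * c := by rw [hc]; ring
  rw [h9] at h2
  have h10 := Nat.cast_nonneg (α := ℝ) (C k)
  have h11 := Nat.cast_nonneg (α := ℝ) (C (k + 1))
  nlinarith [mul_pos hc0 h7]

end Pool.Agent.H573Z.SN
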