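import Pool.Agent.H573Z.SN.Emp

open MeasureTheory Filter Topology Finset

namespace Pool.Agent.H573Z.SN

/-- greedy selection -/
lemma greedy {Ω β ι : Type*} [MeasurableSpace Ω] [Fintype ι] (μ : Measure Ω)
    [IsProbabilityMeasure μ] (ρ : β → Ω → ℝ) (hρ0 : ∀ b x, 0 ≤ ρ b x)
    (hρi : ∀ b, Integrable (ρ b) μ) (hρ1 : ∀ b, ∫ x, ρ b x ∂μ = 1)
    (Φ : β → Ω → ι → ℝ) (hΦm : ∀ b i, Measurable (fun x => Φ b x i))
    (hΦ1 : ∀ b x i, |Φ b x i| ≤ 1) (s : Finset β) :
    ∃ xs : β → Ω, ∑ i, (∑ b ∈ s, (Φ b (xs b) i - ∫ x, Φ b x i * ρ b x ∂μ)) ^ 2 ≤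
      4 * s.card * Fintype.card ι := by
  classical
  have hint : ∀ b i, Integrable (fun x => Φ b x i * ρ b x) μ := fun b i =>
    (hρi b).bdd_mul (hΦm b i).aestronglyMeasurable (c := 1)
      (Eventually.of_forall fun x => by simpa using hΦ1 b x i)
  have hm1 : ∀ b i, |∫ x, Φ b x i * ρ b x ∂μ| ≤ 1 := by
    intro b i
    calc _ ≤ ∫ x, |Φ b x i * ρ b x| ∂μ := abs_integral_le_integral_abs
      _ ≤ ∫ x, ρ b x ∂μ := by
          refine integral_mono (hint b i).abs (hρi b) fun x => ?_
          beta_reduce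
          rw [abs_mul, abs_of_nonneg (hρ0 b x)]
          exact mul_le_of_le_one_left (hρ0 b x) (hΦ1 b x i)
      _ = 1 := hρ1 b
  induction s using Finset.induction_on with
  | empty =>
    obtain ⟨x0⟩ : Nonempty Ω := nonempty_of_isProbabilityMeasure μ
    exact ⟨fun _ => x0, by simp⟩
  | insert a s ha ih =>
    obtain ⟨xs, hxs⟩ := ih
    set S : ι → ℝ := fun i => ∑ b ∈ s, (Φ b (xs b) i - ∫ x, Φ b x i * ρ b x ∂μ) with hS
    set m : ι → ℝ := fun i => ∫ x, Φ a x i * ρ a x ∂μ with hm
    obtain ⟨x, hx⟩ : ∃ x, ∑ i, S i * (Φ a x i - m i) ≤ 0 := by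
      by_contra hc
      push Not at hc
      have e : ∀ x, (∑ i, S i * (Φ a x i - m i)) * ρ a x =
          ∑ i, (S i * (Φ a x i * ρ a x) - S i * m i * ρ a x) := by
        intro x; rw [sum_mul]; exact sum_congr rfl fun i _ => by ring
      have hi : ∀ i, Integrable (fun x => S i * (Φ a x i * ρ a x) - S i * m i * ρ a x) μ :=
        fun i => ((hint a i).const_mul _).sub ((hρi a).const_mul _)
      have h0 : ∫ x, (∑ i, S i * (Φ a x i - m i)) * ρ a x ∂μ = 0 := by
        simp_rw [e]
        rw [integral_finsetSum _ fun i _ => hi i]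
        refine sum_eq_zero fun i _ => ?_
        rw [integral_sub ((hint a i).const_mul _) ((hρi a).const_mul _), integral_const_mul,
          integral_const_mul, hρ1 a]
        simp [hm]
      rw [integral_eq_zero_iff_of_nonneg (fun x => mul_nonneg (hc x).le (hρ0 a x))
        (by simp_rw [e]; exact integrable_finsetSum _ fun i _ => hi i)] at h0
      have h1 : ∫ x, ρ a x ∂μ = 0 := by
        refine integral_eq_zero_of_ae ?_
        filter_upwards [h0] with x hx
        exact (mul_eq_zero.mp hx).resolve_left (hc x).ne'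
      rw [hρ1 a] at h1
      exact one_ne_zero h1
    refine ⟨Function.update xs a x, ?_⟩
    have e : ∀ i, ∑ b ∈ insert a s, (Φ b (Function.update xs a x b) i - ∫ x, Φ b x i * ρ b x ∂μ) =
        (Φ a x i - m i) + S i := by
      intro i
      rw [sum_insert ha, Function.update_self]
      congr 1
      refine sum_congr rfl fun b hb => ?_
      rw [Function.update_of_ne (by rintro rfl; exact ha hb)]
    simp_rw [e]
    have h4 : ∀ i, ((Φ a x i - m i) + S i) ^ 2 ≤ S i ^ 2 + 2 * (S i * (Φ a x i - m i)) + 4 := by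
      intro i
      have h1 := abs_le.mp (hΦ1 a x i)
      have h2 := abs_le.mp (hm1 a i)
      have h3 : (Φ a x i - m i) ^ 2 ≤ 2 ^ 2 := by
        apply sq_le_sq'
        · simp only [hm]; linarith
        · simp only [hm]; linarith
      nlinarith
    calc _ ≤ ∑ i, (S i ^ 2 + 2 * (S i * (Φ a x i - m i)) + 4) := sum_le_sum fun i _ => h4 i
      _ = ∑ i, S i ^ 2 + 2 * ∑ i, S i * (Φ a x i - m i) + 4 * Fintype.card ι := by
          rw [sum_add_distrib, sum_add_distrib, ← mul_sum]
          simp [mul_comm]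
      _ ≤ _ := by
          rw [card_insert_of_notMem ha]
          push_cast
          linarith

variable {Λ : Type*} [MeasurableSpace Λ]

open Classical in
/-- deviation of the indicator of a cylinder -/
noncomputable def dev (μ : Measure (ℕ → Λ)) (B : Σ k : ℕ, Fin k → Λ) (x : ℕ → Λ) : ℝ :=
  (if x ∈ cyl B.2 then 1 else 0) - μ.real (cyl B.2)

/-- partial sums of the deviation -/
noncomputable def DD (μ : Measure (ℕ → Λ)) (B : Σ k : ℕ, Fin k → Λ) (x : ℕ → Λ) (N : ℕ) : ℝ :=
  ∑ n ∈ range N, dev μ B (shift^[n] x)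

open Classical in
/-- centred indicator of the letter -/
noncomputable def FF (μ : Measure (ℕ → Λ)) (a : Λ) (l : Λ) : ℝ :=
  (if l = a then 1 else 0) - μ.real {x | x 0 = a}

/-- the gain -/
noncomputable def Gam (μ : Measure (ℕ → Λ)) (a : Λ) (x : ℕ → Λ) (y : ℕ → Bool) (N : ℕ) : ℝ :=
  ∑ n ∈ range N, FF μ a (x n) * b2r (y n)

section basic
variable (μ : Measure (ℕ → Λ)) [IsProbabilityMeasure μ]

lemma abs_dev_le (B : Σ k : ℕ, Fin k → Λ) (x : ℕ → Λ) : |dev μ B x| ≤ 1 := by
  have h1 : μ.real (cyl B.2) ≤ 1 := measureReal_le_one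
  have h0 : 0 ≤ μ.real (cyl B.2) := measureReal_nonneg
  unfold dev
  rw [abs_le]
  split_ifs <;> constructor <;> linarith

lemma abs_FF_le (a l : Λ) : |FF μ a l| ≤ 1 := by
  have h1 : μ.real {x : ℕ → Λ | x 0 = a} ≤ 1 := measureReal_le_one
  have h0 : 0 ≤ μ.real {x : ℕ → Λ | x 0 = a} := measureReal_nonneg
  unfold FF
  rw [abs_le]
  split_ifs <;> constructor <;> linarith

lemma abs_DD_le (B : Σ k : ℕ, Fin k → Λ) (x : ℕ → Λ) (N : ℕ) : |DD μ B x N| ≤ N := by
  calc _ ≤ ∑ n ∈ range N, |dev μ B (shift^[n] x)| := abs_sum_le_sum_abs _ _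
    _ ≤ ∑ _n ∈ range N, (1 : ℝ) := sum_le_sum fun n _ => abs_dev_le μ B _
    _ = N := by simp

lemma abs_Gam_le (a : Λ) (x : ℕ → Λ) (y : ℕ → Bool) (N : ℕ) : |Gam μ a x y N| ≤ N := by
  calc _ ≤ ∑ n ∈ range N, |FF μ a (x n) * b2r (y n)| := abs_sum_le_sum_abs _ _
    _ ≤ ∑ _n ∈ range N, (1 : ℝ) := sum_le_sum fun n _ => by
        rw [abs_mul, abs_of_nonneg (b2r_nonneg _)]
        exact mul_le_one₀ (abs_FF_le μ a _) (b2r_nonneg _) (b2r_le_one _)
    _ = N := by simp

omit [IsProbabilityMeasure μ] in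
lemma DD_add (B : Σ k : ℕ, Fin k → Λ) (x : ℕ → Λ) (s l : ℕ) :
    DD μ B x (s + l) = DD μ B x s + DD μ B (shift^[s] x) l := by
  unfold DD
  rw [sum_range_add]
  congr 1
  refine sum_congr rfl fun i _ => ?_
  rw [add_comm, Function.iterate_add_apply]

omit [IsProbabilityMeasure μ] in
lemma Gam_add (a : Λ) (x : ℕ → Λ) (y : ℕ → Bool) (s l : ℕ) :
    Gam μ a x y (s + l) = Gam μ a x y s + Gam μ a (shift^[s] x) (shift^[s] y) l := by
  unfold Gam
  rw [sum_range_add]
  congr 1
  refine sum_congr rfl fun i _ => ?_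
  rw [shift_iter, shift_iter]

omit [IsProbabilityMeasure μ] in
lemma Gam_agree (a : Λ) (u w : ℕ → Λ) (y : ℕ → Bool) (l : ℕ) (h : ∀ i < l, u i = w i) :
    Gam μ a u y l = Gam μ a w y l :=
  sum_congr rfl fun i hi => by rw [h i (mem_range.mp hi)]

omit [IsProbabilityMeasure μ] in
lemma DD_agree (B : Σ k : ℕ, Fin k → Λ) (u w : ℕ → Λ) (l : ℕ) (h : ∀ i < l, u i = w i) :
    |DD μ B u l - DD μ B w l| ≤ B.1 := by
  classical
  unfold DD
  rw [← sum_sub_distrib]
  calc _ ≤ ∑ n ∈ range l, |dev μ B (shift^[n] u) - dev μ B (shift^[n] w)| := abs_sum_le_sum_abs _ _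
    _ ≤ ∑ n ∈ range l, (if l < n + B.1 then (1 : ℝ) else 0) := by
        refine sum_le_sum fun n _ => ?_
        split_ifs with hn
        · unfold dev
          rw [sub_sub_sub_cancel_right]
          split_ifs <;> simp
        · have : (shift^[n] u ∈ cyl B.2) ↔ (shift^[n] w ∈ cyl B.2) := by
            simp only [cyl, Set.mem_ofPred_eq, shift_iter]
            refine forall_congr' fun i => ?_
            rw [h _ (by have := i.2; omega)]
          unfold dev
          simp only [this]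
          simp
    _ = ((range l).filter (fun n => l < n + B.1)).card := by simp
    _ ≤ B.1 := by
        have : (range l).filter (fun n => l < n + B.1) ⊆ Ico (l - B.1) l := by
          intro n hn
          simp only [mem_filter, mem_range, mem_Ico] at hn ⊢
          omega
        have h2 := card_le_card this
        rw [Nat.card_Ico] at h2
        exact_mod_cast h2.trans (by omega)

end basic

/-- concatenation of the initial pieces of length `l` -/
def cat {A : Type*} (l : ℕ) (z : ℕ → ℕ → A) (n : ℕ) : A := z (n / l) (n % l)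

lemma cat_shift {A : Type*} (l : ℕ) (z : ℕ → ℕ → A) (t i : ℕ) (hi : i < l) :
    shift^[t * l] (cat l z) i = z t i := by
  rw [shift_iter]
  unfold cat
  have hl : 0 < l := by omega
  rw [show t * l + i = i + l * t by ring, Nat.add_mul_div_left _ _ hl, Nat.div_eq_of_lt hi,
    Nat.add_mul_mod_self_left, Nat.mod_eq_of_lt hi, zero_add]

lemma DD_cat (μ : Measure (ℕ → Λ)) (B : Σ k : ℕ, Fin k → Λ) (l : ℕ) (z : ℕ → ℕ → Λ) (T : ℕ) :
    |DD μ B (cat l z) (T * l) - ∑ t ∈ range T, DD μ B (z t) l| ≤ T * B.1 := by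
  induction T with
  | zero => simp [DD]
  | succ T ih =>
    rw [add_mul, one_mul, DD_add, sum_range_succ]
    have h := DD_agree μ B (shift^[T * l] (cat l z)) (z T) l (fun i hi => cat_shift l z T i hi)
    have h1 := abs_le.mp ih
    have h2 := abs_le.mp h
    rw [abs_le]
    push_cast
    constructor <;> linarith

lemma Gam_cat (μ : Measure (ℕ → Λ)) (a : Λ) (l : ℕ) (z : ℕ → ℕ → Λ) (y : ℕ → Bool) (T : ℕ) :
    Gam μ a (cat l z) y (T * l) = ∑ t ∈ range T, Gam μ a (z t) (shift^[t * l] y) l := by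
  induction T with
  | zero => simp [Gam]
  | succ T ih =>
    rw [add_mul, one_mul, Gam_add, sum_range_succ, ih,
      Gam_agree μ a (shift^[T * l] (cat l z)) (z T) _ l (fun i hi => cat_shift l z T i hi)]

variable [DiscreteMeasurableSpace Λ]

lemma measurableSet_cyl {k : ℕ} (B : Fin k → Λ) : MeasurableSet (cyl B) := by
  have : cyl B = ⋂ i : Fin k, (fun x : ℕ → Λ => x i) ⁻¹' {B i} := by
    ext x; simp [cyl]
  rw [this]
  exact MeasurableSet.iInter fun i => measurable_pi_apply _ (measurableSet_singleton _)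

lemma measurable_dev (μ : Measure (ℕ → Λ)) (B : Σ k : ℕ, Fin k → Λ) : Measurable (dev μ B) := by
  classical
  exact (Measurable.ite (measurableSet_cyl B.2) measurable_const measurable_const).sub
    measurable_const

lemma measurable_DD (μ : Measure (ℕ → Λ)) (B : Σ k : ℕ, Fin k → Λ) (N : ℕ) :
    Measurable (fun x => DD μ B x N) :=
  Finset.measurable_sum _ fun n _ => (measurable_dev μ B).comp (measurable_shift.iterate n)

lemma measurable_Gam (μ : Measure (ℕ → Λ)) (a : Λ) (y : ℕ → Bool) (N : ℕ) :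
    Measurable (fun x => Gam μ a x y N) :=
  Finset.measurable_sum _ fun n _ =>
    ((Measurable.of_discrete (f := FF μ a)).comp (measurable_pi_apply n)).mul measurable_const

lemma integral_DD (μ : Measure (ℕ → Λ)) [IsProbabilityMeasure μ]
    (hμ : MeasurePreserving shift μ μ) (B : Σ k : ℕ, Fin k → Λ) (N : ℕ) :
    ∫ x, DD μ B x N ∂μ = 0 := by
  classical
  have hi : Integrable (dev μ B) μ :=
    Integrable.of_bound (measurable_dev μ B).aestronglyMeasurable 1
      (Eventually.of_forall fun x => abs_dev_le μ B x)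
  have h0 : ∫ x, dev μ B x ∂μ = 0 := by
    have e : (fun x : ℕ → Λ => if x ∈ cyl B.2 then (1 : ℝ) else 0) = (cyl B.2).indicator 1 := by
      funext x; simp [Set.indicator]
    unfold dev
    rw [integral_sub _ (integrable_const _), e, integral_indicator_one (measurableSet_cyl _)]
    · simp
    · rw [e]; exact (integrable_const 1).indicator (measurableSet_cyl _)
  unfold DD
  rw [integral_finsetSum (f := fun n x => dev μ B (shift^[n] x)) _ fun n _ =>
    ((hμ.iterate n).integrable_comp_of_integrable hi)]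
  refine sum_eq_zero fun n _ => ?_
  rw [← integral_map (measurable_shift.iterate n).aemeasurable
    (measurable_dev μ B).aestronglyMeasurable, (hμ.iterate n).map_eq, h0]

lemma law_letter (μ : Measure (ℕ → Λ)) [IsProbabilityMeasure μ]
    (hμ : MeasurePreserving shift μ μ) (a : Λ) (L : ℕ) (k : Fin L) :
    ∑ w, lawp μ (zw a L) w * (b2r (w k) - μ.real {x | x 0 = a}) = 0 := by
  have h1 := real_preimage_bool μ (zw a L) (measurable_zw a L) (fun w => w k)
  have h2 : (fun x => zw a L x k) ⁻¹' {true} = shift^[k] ⁻¹' {x : ℕ → Λ | x 0 = a} := by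
    ext x; simp [zw, shift_iter]
  have h3 : MeasurableSet {x : ℕ → Λ | x 0 = a} :=
    (measurable_pi_apply (X := fun _ : ℕ => Λ) 0) (measurableSet_singleton a)
  rw [h2, (hμ.iterate k).measureReal_preimage h3.nullMeasurableSet] at h1
  simp_rw [mul_sub]
  rw [sum_sub_distrib, ← sum_mul, lawp_sum μ _ (measurable_zw a L), one_mul]
  unfold b2r
  rw [← h1, sub_self]

end Pool.Agent.H573Z.SN
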