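import Pool.Agent.H573Z.SN.Win

open MeasureTheory Filter Topology Finset

namespace Pool.Agent.H573Z.SN

variable {Λ : Type*} [MeasurableSpace Λ] [DiscreteMeasurableSpace Λ]

lemma inv_fmask_letter {L : ℕ} {i k : Fin L} (h : i < k) (w w' : Fin L → Bool)
    (e : fmask i w = fmask i w') : w k = w' k := by
  have := congrFun e k
  simpa only [fmask, if_pos h] using this

lemma inv_fmask_fmask {L : ℕ} {i k : Fin L} (h : i < k) (w w' : Fin L → Bool)
    (e : fmask i w = fmask i w') : fmask k w = fmask k w' := by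
  funext j
  simp only [fmask]
  split_ifs with hj
  · exact inv_fmask_letter (h.trans hj) w w' e
  · rfl

lemma inv_pmask_letter {L : ℕ} {i k : Fin L} (h : k < i) (w w' : Fin L → Bool)
    (e : pmask i w = pmask i w') : w k = w' k := by
  have := congrFun e k
  simpa only [pmask, if_pos h] using this

lemma inv_pmask_pmask {L : ℕ} {i k : Fin L} (h : k < i) (w w' : Fin L → Bool)
    (e : pmask i w = pmask i w') : pmask k w = pmask k w' := by
  funext j
  simp only [pmask]
  split_ifs with hj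
  · exact inv_pmask_letter (hj.trans h) w w' e
  · rfl

/-- blocks for one window -/
lemma blocks (μ : Measure (ℕ → Λ)) [IsProbabilityMeasure μ] (hμ : MeasurePreserving shift μ μ)
    (a : Λ) (δ : ℝ) (hX : Unpred fmask μ a δ) (𝔅 : Finset (Σ k : ℕ, Fin k → Λ))
    (L M : ℕ) (hL : 0 < L) (hM : 0 < M) (ε : ℝ) (hε : 0 < ε)
    (hMε : 4 * ((𝔅.card : ℝ) + 1) ≤ ε ^ 2 * M) (y : ℕ → Bool) :
    ∃ xs : ℕ → ℕ → Λ, (∀ B ∈ 𝔅, |∑ b ∈ range M, DD μ B (xs b) L| ≤ ε * (M * L)) ∧
      δ * M * VV (fun b : Fin M => blk L y b) - ε * (M * L) ≤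
        ∑ b ∈ range M, Gam μ a (xs b) (shift^[b * L] y) L := by
  classical
  have hLr : (0 : ℝ) < L := by exact_mod_cast hL
  have hMr : (0 : ℝ) < M := by exact_mod_cast hM
  set p := lawp μ (zw a L) with hp
  have hp0 : ∀ w, 0 ≤ p w := lawp_nonneg μ _
  have hp1 : ∑ w, p w = 1 := lawp_sum μ _ (measurable_zw _ _)
  set m0 := μ.real {x : ℕ → Λ | x 0 = a} with hm0
  let u : Fin L → (Fin L → Bool) → ℝ := fun i => inn p (fmask i) (fun w => b2r (w i))
  let Bk : Fin M → Fin L → Bool := fun b => blk L y b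
  let q : Fin M → ℝ := fun _ => 1 / M
  have hq0 : ∀ b, 0 ≤ q b := fun _ => by positivity
  let v : Fin L → Fin M → ℝ := fun i => vv Bk i
  have hu1 : ∀ i w, |u i w| ≤ 1 := fun i w =>
    abs_inn_le p hp0 _ _ (fun _ => b2r_nonneg _) (fun _ => b2r_le_one _) w
  have hv1 : ∀ i b, |v i b| ≤ 1 := fun i b =>
    abs_inn_le q hq0 _ _ (fun _ => b2r_nonneg _) (fun _ => b2r_le_one _) b
  have horth : ∀ i G, Inv (fmask i) G → ∑ w, p w * (u i w * G w) = 0 :=
    fun i G hG => inn_orth p hp0 _ _ G hG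
  have hu : ∀ i j, i < j → Inv (fmask i) (u j) := by
    intro i j hij w w' e
    simp only [u, inn]
    rw [inv_fmask_letter hij w w' e, inv_fmask_fmask hij w w' e]
  have horth' : ∀ i G, Inv (fun b => pmask i (Bk b)) G → ∑ b, q b * (v i b * G b) = 0 :=
    fun i G hG => inn_orth q hq0 _ _ G hG
  have hv : ∀ i j, j < i → Inv (fun b => pmask i (Bk b)) (v j) := by
    intro i j hij b b' e
    simp only [v, vv, inn]
    rw [inv_pmask_letter hij _ _ e, inv_pmask_pmask hij _ _ e]
  let Dn : (Fin L → Bool) → Fin M → ℝ := fun w b => ∏ i, (1 + u i w * v i b)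
  have hD0 : ∀ w b, 0 ≤ Dn w b := fun w b => prod_nonneg fun i _ => by
    have : |u i w * v i b| ≤ 1 := by
      rw [abs_mul]; exact mul_le_one₀ (hu1 i w) (abs_nonneg _) (hv1 i b)
    linarith [neg_abs_le (u i w * v i b)]
  have hD1 : ∀ b, ∑ w, p w * Dn w b = 1 := by
    intro b
    have := collapse p fmask u horth hu (fun i => v i b) univ (fun _ => 1) (fun _ _ _ _ _ => rfl)
    simp only [mul_one] at this
    rw [hp1] at this
    rw [← this]
    refine sum_congr rfl fun w _ => ?_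
    simp only [Dn, mul_comm (v _ b)]
  have hD2 : ∀ w, ∑ b, Dn w b = M := by
    intro w
    have := collapse (ι := (Fin L)ᵒᵈ) q (fun i b => pmask i (Bk b)) v horth'
      (fun i j hij => hv i j hij) (fun i => u i w) univ (fun _ => 1) (fun _ _ _ _ _ => rfl)
    simp only [mul_one, q] at this
    rw [← mul_sum] at this
    simp only [sum_const, card_univ, Fintype.card_fin, nsmul_eq_mul] at this
    have h2 : (1 : ℝ) / M * ∑ b, Dn w b = M * (1 / M) := this
    field_simp at h2
    exact h2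
  let ρ : Fin M → (ℕ → Λ) → ℝ := fun b x => Dn (zw a L x) b
  have hρi : ∀ b, Integrable (ρ b) μ := fun b =>
    integrable_law μ _ (measurable_zw a L) (fun w => Dn w b)
  let Φ : Fin M → (ℕ → Λ) → Option 𝔅 → ℝ := fun b x i => match i with
    | none => Gam μ a x (shift^[b * L] y) L / L
    | some B => DD μ B.1 x L / L
  have hΦm : ∀ b i, Measurable (fun x => Φ b x i) := by
    rintro b (_ | B)
    · exact (measurable_Gam μ a _ L).div_const _
    · exact (measurable_DD μ B.1 L).div_const _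
  have hΦ1 : ∀ b x i, |Φ b x i| ≤ 1 := by
    rintro b x (_ | B)
    · simp only [Φ]
      rw [abs_div, abs_of_pos hLr, div_le_one hLr]
      exact abs_Gam_le μ a _ _ _
    · simp only [Φ]
      rw [abs_div, abs_of_pos hLr, div_le_one hLr]
      exact abs_DD_le μ _ _ _
  obtain ⟨xs, hxs⟩ := greedy μ ρ (fun b x => hD0 _ b) hρi
    (fun b => by
      rw [show ρ b = fun x => (fun w => Dn w b) (zw a L x) from rfl,
        integral_law μ _ (measurable_zw a L) (fun w => Dn w b)]
      exact hD1 b) Φ hΦm hΦ1 univ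
  have hcoord : ∀ i, |∑ b, (Φ b (xs b) i - ∫ x, Φ b x i * ρ b x ∂μ)| ≤ ε * M := by
    intro i
    have h1 := (single_le_sum (f := fun i => (∑ b, (Φ b (xs b) i - ∫ x, Φ b x i * ρ b x ∂μ)) ^ 2)
      (fun i _ => sq_nonneg _) (mem_univ i)).trans hxs
    simp only [card_univ, Fintype.card_fin, Fintype.card_option, Fintype.card_coe] at h1
    push_cast at h1
    refine abs_le_of_sq_le_sq' ?_ (by positivity) |> abs_le.mpr
    nlinarith [mul_le_mul_of_nonneg_right hMε hMr.le]
  obtain ⟨x0⟩ : Nonempty (ℕ → Λ) := nonempty_of_isProbabilityMeasure μ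
  refine ⟨fun t => if h : t < M then xs ⟨t, h⟩ else x0, fun B hB => ?_, ?_⟩
  · have h1 := hcoord (some ⟨B, hB⟩)
    have hDi : Integrable (fun x => DD μ B x L / L) μ :=
      Integrable.of_bound (hΦm ⟨0, hM⟩ (some ⟨B, hB⟩)).aestronglyMeasurable 1
        (Eventually.of_forall fun x => hΦ1 ⟨0, hM⟩ x (some ⟨B, hB⟩))
    have h2 : ∑ b, ∫ x, Φ b x (some ⟨B, hB⟩) * ρ b x ∂μ = 0 := by
      rw [← integral_finsetSum (f := fun b x => Φ b x (some ⟨B, hB⟩) * ρ b x) _ fun b _ =>
        (hρi b).bdd_mul (hΦm b (some ⟨B, hB⟩)).aestronglyMeasurable (c := 1)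
          (Eventually.of_forall fun x => by simpa using hΦ1 b x (some ⟨B, hB⟩))]
      simp only [Φ, ρ]
      simp_rw [← mul_sum, hD2]
      rw [integral_mul_const, integral_div, integral_DD μ hμ]
      simp
    rw [sum_sub_distrib, h2, sub_zero] at h1
    simp only [Φ] at h1
    rw [← sum_div, abs_div, abs_of_pos hLr, div_le_iff₀ hLr] at h1
    rw [← Fin.sum_univ_eq_sum_range (fun t => DD μ B (if h : t < M then xs ⟨t, h⟩ else x0) L)]
    simp only [Fin.is_lt, dif_pos, Fin.eta]
    linarith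
  · have h1 := hcoord none
    have h2 : δ * M * VV Bk / L ≤ ∑ b, ∫ x, Φ b x none * ρ b x ∂μ := by
      have e1 : ∀ b, ∫ x, Φ b x none * ρ b x ∂μ =
          (∑ k : Fin L, ∑ w, p w * (Dn w b * ((b2r (w k) - m0) * b2r (Bk b k)))) / L := by
        intro b
        rw [sum_comm]
        simp_rw [← mul_sum]
        rw [sum_div]
        simp_rw [mul_div_assoc]
        rw [← integral_law μ _ (measurable_zw a L)
          (fun w => Dn w b * ((∑ k : Fin L, (b2r (w k) - m0) * b2r (Bk b k)) / L))]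
        congr 1
        funext x
        simp only [Φ, ρ, Gam]
        rw [mul_comm]
        congr 2
        rw [← Fin.sum_univ_eq_sum_range (fun n => FF μ a (x n) * b2r (shift^[b * L] y n))]
        refine sum_congr rfl fun k _ => ?_
        simp only [FF, zw, b2r, Bk, blk, shift_iter, decide_eq_true_eq]
        rfl
      simp_rw [e1]
      rw [← sum_div]
      refine div_le_div_of_nonneg_right ?_ hLr.le
      rw [sum_comm]
      unfold VV
      rw [mul_sum]
      refine sum_le_sum fun k _ => ?_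
      have hc := coupling p fmask u horth hu q (fun i b => pmask i (Bk b)) v horth' hv k
        (fun w => b2r (w k) - m0)
        (fun i hi w w' e => by beta_reduce; rw [inv_fmask_letter hi w w' e])
        (fun b => b2r (Bk b k))
        (fun i hi b b' e => by beta_reduce; rw [inv_pmask_letter hi _ _ e])
      rw [law_letter μ hμ a L k, zero_mul, zero_add, inn_sq p hp0] at hc
      have h3 := inn_sq q hq0 (fun b => pmask k (Bk b)) (fun b => b2r (Bk b k)) 0
      simp only [sub_zero] at h3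
      have h4 : ∑ b, q b * (b2r (Bk b k) * v k b) = ∑ b, q b * v k b ^ 2 := h3
      rw [h4] at hc
      have h5 : δ ≤ ∑ w, p w * inn p (fmask k) (fun w => b2r (w k)) w ^ 2 :=
        hX L k (fun w => cmean p (fmask k) (fun w => b2r (w k)) (fmask k w))
          (fun w w' e => congrArg (cmean p (fmask k) (fun w => b2r (w k))) e)
      have h6 : 0 ≤ ∑ b, q b * v k b ^ 2 := sum_nonneg fun b _ => mul_nonneg (hq0 b) (sq_nonneg _)
      have h7 := mul_le_mul_of_nonneg_right h5 h6
      rw [← hc] at h7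
      simp only [q] at h7
      rw [← mul_sum, ← mul_sum] at h7
      rw [← mul_sum]
      have h8 := mul_le_mul_of_nonneg_left h7 hMr.le
      have e2 : ∀ t : ℝ, (M : ℝ) * (1 / M * t) = t := fun t => by field_simp
      rw [e2] at h8
      calc _ = M * (δ * (1 / M * ∑ b, v k b ^ 2)) := by ring
        _ ≤ _ := h8
    rw [sum_sub_distrib] at h1
    have h3 := (abs_le.mp h1).1
    simp only [Φ] at h3
    rw [← sum_div] at h3
    rw [← Fin.sum_univ_eq_sum_range
      (fun t => Gam μ a (if h : t < M then xs ⟨t, h⟩ else x0) (shift^[t * L] y) L)]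
    simp only [Fin.is_lt, dif_pos, Fin.eta]
    have h4 : δ * M * VV Bk / L - ε * M ≤ (∑ b : Fin M, Gam μ a (xs b) (shift^[b * L] y) L) / L := by
      simp only [Φ] at h2
      linarith
    rw [le_div_iff₀ hLr, sub_mul, div_mul_cancel₀ _ hLr.ne'] at h4
    linarith

/-- the window lemma -/
lemma window (μ : Measure (ℕ → Λ)) [IsProbabilityMeasure μ] (hμ : MeasurePreserving shift μ μ)
    (a : Λ) (δ : ℝ) (hδ : 0 < δ) (hX : Unpred fmask μ a δ)
    (ν : Measure (ℕ → Bool)) [IsProbabilityMeasure ν] (δ' : ℝ) (hδ' : 0 < δ')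
    (hY : Unpred pmask ν true δ') (𝔅 : Finset (Σ k : ℕ, Fin k → Λ)) (ε : ℝ) (hε : 0 < ε) :
    ∃ l : ℕ, 0 < l ∧ (∀ B ∈ 𝔅, (B.1 : ℝ) ≤ ε * l) ∧ ∃ G : C(ℕ → Bool, ℝ),
      δ * δ' / 2 ≤ ∫ y, G y ∂ν ∧ ∀ y, ∃ z : ℕ → Λ, (∀ B ∈ 𝔅, |DD μ B z l| ≤ 2 * ε * l) ∧
        (G y - ε) * l ≤ Gam μ a z y l := by
  obtain ⟨L0, hL0⟩ := exists_nat_ge ((𝔅.sup (fun B => B.1) : ℕ) / ε)
  set L := L0 + 1 with hL
  have hLr : (0 : ℝ) < L := by positivity
  have hBL : ∀ B ∈ 𝔅, (B.1 : ℝ) ≤ ε * L := by
    intro B hB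
    have h1 : B.1 ≤ 𝔅.sup (fun B => B.1) := le_sup (f := fun B : Σ k : ℕ, Fin k → Λ => B.1) hB
    have h2 : (B.1 : ℝ) ≤ (𝔅.sup (fun B => B.1) : ℕ) := by exact_mod_cast h1
    rw [div_le_iff₀ hε] at hL0
    rw [hL]; push_cast
    nlinarith
  obtain ⟨M0, hM0, hV⟩ := VV_integral ν δ' hδ' hY L
  obtain ⟨M1, hM1⟩ := exists_nat_ge (4 * ((𝔅.card : ℝ) + 1) / ε ^ 2)
  set M := M0 + M1 with hM
  have hMpos : 0 < M := by omega
  have hMr : (1 : ℝ) ≤ M := by exact_mod_cast hMpos
  have hMε : 4 * ((𝔅.card : ℝ) + 1) ≤ ε ^ 2 * M := by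
    rw [div_le_iff₀ (by positivity)] at hM1
    have : (M1 : ℝ) ≤ M := by exact_mod_cast Nat.le_add_left _ _
    nlinarith [sq_nonneg ε]
  have hcont : Continuous (fun y : ℕ → Bool => δ * VV (fun b : Fin M => blk L y b) / L) := by
    refine (continuous_of_discreteTopology
      (f := fun B : Fin M → Fin L → Bool => δ * VV B / L)).comp ?_
    exact continuous_pi fun b => continuous_pi fun j => continuous_apply _
  refine ⟨M * L, Nat.mul_pos hMpos (Nat.succ_pos _), fun B hB => ?_, ⟨_, hcont⟩, ?_, fun y => ?_⟩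
  · have := hBL B hB
    push_cast
    nlinarith [mul_pos hε hLr]
  · simp only [ContinuousMap.coe_mk]
    rw [integral_div, integral_const_mul, le_div_iff₀ hLr]
    have := mul_le_mul_of_nonneg_left (hV M (Nat.le_add_right _ _)) hδ.le
    linarith
  · obtain ⟨xs, h1, h2⟩ := blocks μ hμ a δ hX 𝔅 L M (Nat.succ_pos _) hMpos ε hε hMε y
    refine ⟨cat L xs, fun B hB => ?_, ?_⟩
    · have h3 := abs_le.mp (DD_cat μ B L xs M)
      have h4 := abs_le.mp (h1 B hB)
      have h5 := mul_le_mul_of_nonneg_left (hBL B hB) (by positivity : (0 : ℝ) ≤ M)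
      rw [abs_le]
      push_cast
      constructor <;> nlinarith
    · rw [Gam_cat]
      refine le_trans (le_of_eq ?_) h2
      simp only [ContinuousMap.coe_mk]
      push_cast
      field_simp

end Pool.Agent.H573Z.SN
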